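import Mathlib

/-!
A germ transport with values in a group is trivial on a simply connected space.
-/

namespace Pool.Agent.Lib.MP_5c318e_ag.Abs

open Filter Topology Set

/-- the fibre bundle with discrete fibre attached to a germ transport -/
def liftCore {A Γ : Type*} [TopologicalSpace A] [Group Γ] [TopologicalSpace Γ]
    [DiscreteTopology Γ] (ka : A → A → Γ) (h1 : ∀ y, ka y y = 1)
    (hco : ∀ y, ∀ᶠ y1 in 𝓝 y, ∀ᶠ y2 in 𝓝 y1, ka y y2 = ka y y1 * ka y1 y2) :
    FiberBundleCore A A Γ where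
  baseSet a := {y1 | ∀ᶠ y2 in 𝓝 y1, ka a y2 = ka a y1 * ka y1 y2}
  isOpen_baseSet a := by
    rw [isOpen_iff_mem_nhds]
    intro y1 hy
    filter_upwards [hy.eventually_nhds, hy, hco y1] with y2 e1 e2 e3
    filter_upwards [e1, e3] with y3 f1 f2
    rw [f1, f2, e2, mul_assoc]
  indexAt a := a
  mem_baseSet_at a := Eventually.of_forall fun y => by rw [h1, one_mul]
  coordChange a b y g := g * ka a y * (ka b y)⁻¹
  coordChange_self a y _ g := by simp
  continuousOn_coordChange a b := by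
    rintro ⟨y, g⟩ ⟨⟨ha, hb⟩, -⟩
    refine ContinuousAt.continuousWithinAt ?_
    have e : ∀ᶠ p : A × Γ in 𝓝 (y, g),
        p.2 * ka a p.1 * (ka b p.1)⁻¹ = g * ka a y * (ka b y)⁻¹ := by
      have e1 : ∀ᶠ p : A × Γ in 𝓝 (y, g), p.2 = g :=
        continuous_snd.continuousAt.eventually (p := fun x => x = g)
          (by simp [nhds_discrete])
      filter_upwards [e1, continuous_fst.continuousAt.eventually ha,
        continuous_fst.continuousAt.eventually hb] with p f1 f2 f3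
      rw [f1, f2, f3]
      group
    exact continuousAt_const.congr (e.mono fun _ h => h.symm)
  coordChange_comp a b c y _ g := by group

/-- LIFT on a space -/
theorem lift_space {A Γ : Type*} [TopologicalSpace A] [SimplyConnectedSpace A]
    [LocallyPathConnectedSpace A] [Group Γ] (ka : A → A → Γ) (h1 : ∀ y, ka y y = 1)
    (hco : ∀ y, ∀ᶠ y1 in 𝓝 y, ∀ᶠ y2 in 𝓝 y1, ka y y2 = ka y y1 * ka y1 y2) (a0 : A) (k0 : Γ) :
    ∃ k : A → Γ, k a0 = k0 ∧ ∀ a, ∀ᶠ a1 in 𝓝 a, k a1 = k a * ka a a1 := by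
  let : TopologicalSpace Γ := ⊥
  have : DiscreteTopology Γ := ⟨rfl⟩
  let Z := liftCore ka h1 hco
  have cov : IsCoveringMap Z.proj := FiberBundle.isCoveringMap (F := Γ) (E := Z.Fiber)
  obtain ⟨F, ⟨hF0, hF⟩, -⟩ :=
    cov.existsUnique_continuousMap_lifts (ContinuousMap.id A) a0 ⟨a0, k0⟩ rfl
  have hp : ∀ a, (F a).1 = a := fun a => congrFun hF a
  refine ⟨fun a => ((F a).2 : Γ), congrArg (fun p : Z.TotalSpace => (p.2 : Γ)) hF0, fun a => ?_⟩
  have hs : F a ∈ (Z.localTriv a).source := by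
    rw [Z.mem_localTriv_source, hp]
    exact Z.mem_baseSet_at a
  have hc : ContinuousAt (fun y => ((Z.localTriv a) (F y)).2) a :=
    continuous_snd.continuousAt.comp (ContinuousAt.comp (g := Z.localTriv a)
      ((Z.localTriv a).toOpenPartialHomeomorph.continuousAt hs) F.continuous.continuousAt)
  have e : ∀ y, ((Z.localTriv a) (F y)).2 = @HMul.hMul Γ Γ Γ _ (F y).2 (ka a y)⁻¹ := by
    intro y
    rw [Z.localTriv_apply]
    change @HMul.hMul Γ Γ Γ _ (@HMul.hMul Γ Γ Γ _ (F y).2 (ka (F y).1 (F y).1))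
      (ka a (F y).1)⁻¹ = _
    rw [h1, mul_one, hp]
  have e2 := hc.eventually (p := fun x => x = ((Z.localTriv a) (F a)).2) (by simp [nhds_discrete])
  filter_upwards [e2] with y hy
  rw [e, e, h1, inv_one, mul_one] at hy
  rw [← hy, inv_mul_cancel_right]

/-- LIFT along a continuous map from a simply connected space into a set `U` that carries a germ
transport -/
theorem lift_map {A X Γ : Type*} [TopologicalSpace A] [SimplyConnectedSpace A]
    [LocallyPathConnectedSpace A] [TopologicalSpace X] [Group Γ] {U : Set X} (ka : X → X → Γ)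
    (h1 : ∀ y ∈ U, ka y y = 1)
    (hco : ∀ y ∈ U, ∀ᶠ y1 in 𝓝[U] y, ∀ᶠ y2 in 𝓝[U] y1, ka y y2 = ka y y1 * ka y1 y2)
    {f : A → X} (hf : Continuous f) (hU : ∀ a, f a ∈ U) (a0 : A) (k0 : Γ) :
    ∃ k : A → Γ, k a0 = k0 ∧ ∀ a, ∀ᶠ a1 in 𝓝 a, k a1 = k a * ka (f a) (f a1) := by
  have ht : ∀ a, Tendsto f (𝓝 a) (𝓝[U] f a) := fun a =>
    tendsto_nhdsWithin_iff.mpr ⟨hf.continuousAt, Eventually.of_forall hU⟩
  refine lift_space (fun a b => ka (f a) (f b)) (fun a => h1 _ (hU a)) (fun a => ?_) a0 k0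
  filter_upwards [(ht a).eventually (hco _ (hU a))] with a1 h
  exact (ht a1).eventually h

/-- LIFT on a simply connected open set, along a map that is continuous on it -/
theorem lift_on {E X Γ : Type*} [TopologicalSpace E] [LocallyPathConnectedSpace E]
    [TopologicalSpace X] [Group Γ] {O : Set E} (hO : IsOpen O) (hs : IsSimplyConnected O)
    {U : Set X} (ka : X → X → Γ) (h1 : ∀ y ∈ U, ka y y = 1)
    (hco : ∀ y ∈ U, ∀ᶠ y1 in 𝓝[U] y, ∀ᶠ y2 in 𝓝[U] y1, ka y y2 = ka y y1 * ka y1 y2)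
    {f : E → X} (hf : ContinuousOn f O) (hU : MapsTo f O U) {a0 : E} (h0 : a0 ∈ O) (k0 : Γ) :
    ∃ k : E → Γ, k a0 = k0 ∧ ∀ a ∈ O, ∀ᶠ a1 in 𝓝 a, k a1 = k a * ka (f a) (f a1) := by
  classical
  have := hs.simplyConnectedSpace
  have := hO.locallyPathConnectedSpace
  obtain ⟨k, hk0, hk⟩ := lift_map (A := O) ka h1 hco (f := fun a => f a) hf.domRestrict
    (fun a => hU a.2) ⟨a0, h0⟩ k0
  refine ⟨fun a => if h : a ∈ O then k ⟨a, h⟩ else 1, by simp [h0, hk0], fun a ha => ?_⟩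
  have e := hk ⟨a, ha⟩
  rw [← hO.nhdsWithin_eq ha, eventually_nhdsWithin_iff]
  rw [nhds_subtype_eq_comap, eventually_comap] at e
  filter_upwards [e] with a1 h h2
  simpa [ha, h2] using h ⟨a1, h2⟩ rfl

/-- LIFT on a simply connected open set -/
theorem lift_open {E Γ : Type*} [TopologicalSpace E] [LocallyPathConnectedSpace E] [Group Γ]
    {O : Set E} (hO : IsOpen O) (hs : IsSimplyConnected O) (ka : E → E → Γ)
    (h1 : ∀ y ∈ O, ka y y = 1)
    (hco : ∀ y ∈ O, ∀ᶠ y1 in 𝓝 y, ∀ᶠ y2 in 𝓝 y1, ka y y2 = ka y y1 * ka y1 y2)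
    {a0 : E} (h0 : a0 ∈ O) (k0 : Γ) :
    ∃ k : E → Γ, k a0 = k0 ∧ ∀ a ∈ O, ∀ᶠ a1 in 𝓝 a, k a1 = k a * ka a a1 :=
  lift_on hO hs ka h1 (fun y hy => ((hco y hy).mono fun _ h =>
    h.filter_mono nhdsWithin_le_nhds).filter_mono nhdsWithin_le_nhds)
    continuousOn_id (mapsTo_id O) h0 k0

/-- a function that is locally constant on a preconnected set is constant there -/
theorem const_of_eventually {E Γ : Type*} [TopologicalSpace E] {O : Set E} (hO : IsPreconnected O)
    {u : E → Γ} (hu : ∀ a ∈ O, ∀ᶠ a1 in 𝓝[O] a, u a1 = u a) {a b : E} (ha : a ∈ O) (hb : b ∈ O) :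
    u a = u b := by
  let : TopologicalSpace Γ := ⊥
  have : DiscreteTopology Γ := ⟨rfl⟩
  refine hO.constant (fun x hx => ?_) ha hb
  exact (continuousWithinAt_const (b := u x)).congr_of_eventuallyEq (hu x hx) rfl

/-- two lifts differ by a constant on a preconnected set -/
theorem lift_ratio {E Γ : Type*} [TopologicalSpace E] [Group Γ] {O : Set E}
    (hO : IsPreconnected O) {t : E → E → Γ} {k k' : E → Γ}
    (hk : ∀ a ∈ O, ∀ᶠ a1 in 𝓝[O] a, k a1 = k a * t a a1)
    (hk' : ∀ a ∈ O, ∀ᶠ a1 in 𝓝[O] a, k' a1 = k' a * t a a1) {a b : E} (ha : a ∈ O) (hb : b ∈ O) :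
    k a * (k' a)⁻¹ = k b * (k' b)⁻¹ := by
  refine const_of_eventually hO (u := fun a => k a * (k' a)⁻¹) (fun x hx => ?_) ha hb
  filter_upwards [hk x hx, hk' x hx] with y e1 e2
  rw [e1, e2]
  group

/-- uniqueness of the lift -/
theorem lift_unique {E Γ : Type*} [TopologicalSpace E] [Group Γ] {O : Set E}
    (hO : IsPreconnected O) {t : E → E → Γ} {k k' : E → Γ}
    (hk : ∀ a ∈ O, ∀ᶠ a1 in 𝓝[O] a, k a1 = k a * t a a1)
    (hk' : ∀ a ∈ O, ∀ᶠ a1 in 𝓝[O] a, k' a1 = k' a * t a a1) {a0 : E} (h0 : a0 ∈ O)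
    (e : k a0 = k' a0) : EqOn k k' O := by
  intro a ha
  have := lift_ratio hO hk hk' ha h0
  rwa [e, mul_inv_cancel, mul_inv_eq_one] at this

theorem starConvex_simplyConnected {E : Type*} [NormedAddCommGroup E] [NormedSpace ℝ E]
    {O : Set E} {x : E} (h : StarConvex ℝ x O) (hne : O.Nonempty) : IsSimplyConnected O := by
  have := h.contractibleSpace hne
  exact SimplyConnectedSpace.ofContractible O

theorem convex_simplyConnected {E : Type*} [NormedAddCommGroup E] [NormedSpace ℝ E]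
    {O : Set E} (h : Convex ℝ O) (hne : O.Nonempty) : IsSimplyConnected O := by
  have := h.contractibleSpace hne
  exact SimplyConnectedSpace.ofContractible O

end Pool.Agent.Lib.MP_5c318e_ag.Abs
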