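import Mathlib

/-!
Abstract Hodge decomposition in a Hilbert space with an indefinite form `Q a b = ⟪a, J b⟫`,
a sign operator `C`, a grading operator `Y` and an isotropic subspace `B` of exact elements.
-/

namespace Pool.Agent.Lib.MP_5c318e_ag.Abs

open scoped InnerProductSpace

variable {H : Type*} [NormedAddCommGroup H] [InnerProductSpace ℂ H]

/-- The data of one fibre: `Q a b = ⟪a, J b⟫`, `C` the sign operator, `Y` the grading. -/
structure Pol (J C Y : H →L[ℂ] H) (B : Submodule ℂ H) (c : ℝ) : Prop where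
  hJ : ∀ a b, ⟪J a, b⟫_ℂ = ⟪a, J b⟫_ℂ
  hC : ∀ a b, ⟪C a, J b⟫_ℂ = ⟪a, J (C b)⟫_ℂ
  hY : ∀ a b, ⟪Y a, J b⟫_ℂ = ⟪a, J (Y b)⟫_ℂ
  CC : ∀ a, C (C a) = a
  CY : ∀ a, C (Y a) = Y (C a)
  pos : 0 < c
  coer : ∀ a, c * ‖a‖ ^ 2 ≤ (⟪C a, J a⟫_ℂ).re
  iso : ∀ a ∈ B, ∀ b ∈ B, ⟪a, J b⟫_ℂ = 0
  st : ∀ b ∈ B, ∃ b1 ∈ B, ∃ b2 ∈ B, Y b = b1 + C b2

/-- weakly closed elements -/
def Zc (J : H →L[ℂ] H) (B : Submodule ℂ H) : Submodule ℂ H where
  carrier := {a | ∀ b ∈ B, ⟪b, J a⟫_ℂ = 0}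
  add_mem' := fun ha hb b h => by rw [map_add, inner_add_right, ha b h, hb b h, add_zero]
  zero_mem' := fun b _ => by simp
  smul_mem' := fun t a ha b h => by rw [map_smul, inner_smul_right, ha b h, mul_zero]

/-- harmonic elements -/
def Harm (J C : H →L[ℂ] H) (B : Submodule ℂ H) : Submodule ℂ H where
  carrier := {a | (∀ b ∈ B, ⟪b, J a⟫_ℂ = 0) ∧ ∀ b ∈ B, ⟪C b, J a⟫_ℂ = 0}
  add_mem' := fun ha hb =>
    ⟨fun b h => by rw [map_add, inner_add_right, ha.1 b h, hb.1 b h, add_zero],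
      fun b h => by rw [map_add, inner_add_right, ha.2 b h, hb.2 b h, add_zero]⟩
  zero_mem' := ⟨fun b _ => by simp, fun b _ => by simp⟩
  smul_mem' := fun t a ha =>
    ⟨fun b h => by rw [map_smul, inner_smul_right, ha.1 b h, mul_zero],
      fun b h => by rw [map_smul, inner_smul_right, ha.2 b h, mul_zero]⟩

theorem mem_Zc {J : H →L[ℂ] H} {B : Submodule ℂ H} {a : H} :
    a ∈ Zc J B ↔ ∀ b ∈ B, ⟪b, J a⟫_ℂ = 0 := Iff.rfl

theorem mem_Harm {J C : H →L[ℂ] H} {B : Submodule ℂ H} {a : H} :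
    a ∈ Harm J C B ↔ (∀ b ∈ B, ⟪b, J a⟫_ℂ = 0) ∧ ∀ b ∈ B, ⟪C b, J a⟫_ℂ = 0 := Iff.rfl

theorem Harm_le {J C : H →L[ℂ] H} {B : Submodule ℂ H} : Harm J C B ≤ Zc J B := fun _ h => h.1

/-- a pairing that vanishes on `B` vanishes on its closure -/
theorem clos_zero {B : Submodule ℂ H} (T : H →L[ℂ] H) {u : H}
    (h : ∀ b ∈ B, ⟪T b, u⟫_ℂ = 0) {b : H} (hb : b ∈ B.topologicalClosure) : ⟪T b, u⟫_ℂ = 0 := by
  have hc : IsClosed {b : H | ⟪T b, u⟫_ℂ = 0} := isClosed_eq (by fun_prop) continuous_const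
  exact closure_minimal (s := (B : Set H)) (fun b hb => h b hb) hc hb

theorem Zc_clos {J : H →L[ℂ] H} {B : Submodule ℂ H} {a b : H} (ha : a ∈ Zc J B)
    (hb : b ∈ B.topologicalClosure) : ⟪b, J a⟫_ℂ = 0 :=
  clos_zero (ContinuousLinearMap.id ℂ H) (u := J a) ha hb

theorem Harm_clos {J C : H →L[ℂ] H} {B : Submodule ℂ H} {a b : H} (ha : a ∈ Harm J C B)
    (hb : b ∈ B.topologicalClosure) : ⟪C b, J a⟫_ℂ = 0 :=
  clos_zero C ha.2 hb

namespace Pol

variable {J C Y : H →L[ℂ] H} {B : Submodule ℂ H} {c : ℝ} (P : Pol J C Y B c)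
include P

/-- the form is hermitian -/
theorem conj_Q (a b : H) : (starRingEnd ℂ) ⟪a, J b⟫_ℂ = ⟪b, J a⟫_ℂ := by
  rw [inner_conj_symm, P.hJ]

theorem Zc_clos' {a b : H} (ha : a ∈ Zc J B) (hb : b ∈ B.topologicalClosure) :
    ⟪a, J b⟫_ℂ = 0 := by
  rw [← P.conj_Q, Zc_clos ha hb, map_zero]

theorem clos_le : B.topologicalClosure ≤ Zc J B := by
  intro a ha b hb
  have : ⟪a, J b⟫_ℂ = 0 :=
    clos_zero (ContinuousLinearMap.id ℂ H) (u := J b) (fun x hx => P.iso x hx b hb) ha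
  rw [← P.conj_Q, this, map_zero]

theorem eq_zero_of_Q {a : H} (h : ⟪C a, J a⟫_ℂ = 0) : a = 0 := by
  have h1 := P.coer a
  rw [h, Complex.zero_re] at h1
  have h2 : ‖a‖ ^ 2 ≤ 0 := by
    by_contra h3
    exact absurd h1 (not_le.mpr (mul_pos P.pos (not_le.mp h3)))
  have : ‖a‖ ^ 2 = 0 := le_antisymm h2 (sq_nonneg _)
  simpa using this

theorem harm_unique {a : H} (ha : a ∈ Harm J C B) (hb : a ∈ B.topologicalClosure) : a = 0 :=
  P.eq_zero_of_Q (Harm_clos ha hb)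

theorem C_harm {a : H} (ha : a ∈ Harm J C B) : C a ∈ Harm J C B :=
  ⟨fun b hb => by rw [← P.hC, ha.2 b hb], fun b hb => by rw [← P.hC, P.CC, ha.1 b hb]⟩

theorem Y_harm {a : H} (ha : a ∈ Harm J C B) : Y a ∈ Harm J C B := by
  refine ⟨fun b hb => ?_, fun b hb => ?_⟩
  · obtain ⟨b1, h1, b2, h2, e⟩ := P.st b hb
    rw [← P.hY, e, inner_add_left, ha.1 b1 h1, ha.2 b2 h2, add_zero]
  · obtain ⟨b1, h1, b2, h2, e⟩ := P.st b hb
    rw [← P.hY, ← P.CY, e, map_add, P.CC, inner_add_left, ha.2 b1 h1, ha.1 b2 h2, add_zero]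

/-- a closed element on which `C` acts by a scalar is harmonic -/
theorem harm_of_eigen {a : H} (ha : a ∈ Zc J B) {t : ℂ} (h : C a = t • a) : a ∈ Harm J C B :=
  ⟨ha, fun b hb => by rw [P.hC, h, map_smul, inner_smul_right, ha b hb, mul_zero]⟩

/-- the harmonic representative is the shortest, quantitative form -/
theorem norm_sub_le {a u : H} (hu : u ∈ Harm J C B) (hb : u - a ∈ B.topologicalClosure)
    {C' : H →L[ℂ] H} (ha : ∀ b ∈ B.topologicalClosure, ⟪b, J (C' a)⟫_ℂ = 0) :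
    c * ‖u - a‖ ≤ ‖J‖ * ‖C a - C' a‖ := by
  set b := u - a with hbdef
  have h1 := P.coer b
  have h2 : ⟪C b, J b⟫_ℂ = -⟪b, J (C a - C' a)⟫_ℂ := by
    have e1 : ⟪C b, J b⟫_ℂ = ⟪C b, J u⟫_ℂ - ⟪C b, J a⟫_ℂ := by
      rw [← inner_sub_right, ← map_sub]
    rw [e1, Harm_clos hu hb, P.hC, map_sub, inner_sub_right, ha b hb]
    ring
  have h3 : (⟪C b, J b⟫_ℂ).re ≤ ‖b‖ * (‖J‖ * ‖C a - C' a‖) := by
    refine (Complex.re_le_norm _).trans ?_
    rw [h2, norm_neg]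
    refine (norm_inner_le_norm _ _).trans ?_
    gcongr
    exact J.le_opNorm _
  rcases eq_or_lt_of_le (norm_nonneg b) with h0 | h0
  · rw [← h0, mul_zero]; positivity
  · have : ‖b‖ * (c * ‖b‖) ≤ ‖b‖ * (‖J‖ * ‖C a - C' a‖) := by nlinarith
    exact le_of_mul_le_mul_left this h0

/-- existence of the harmonic representative -/
theorem exists_harm [CompleteSpace H] {a : H} (ha : a ∈ Zc J B) :
    ∃ u ∈ Harm J C B, u - a ∈ B.topologicalClosure := by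
  set K := B.topologicalClosure with hK
  have : CompleteSpace K := (B.isClosed_topologicalClosure).completeSpace_coe
  let T : K →L[ℂ] K := K.orthogonalProjectionOnto ∘L (J ∘L C) ∘L K.subtypeL
  have hT : ∀ x y : K, ⟪y, T x⟫_ℂ = ⟪(y : H), J (C x)⟫_ℂ := by
    intro x y
    simp only [T, ContinuousLinearMap.comp_apply, Submodule.subtypeL_apply]
    exact K.inner_orthogonalProjectionOnto_eq_of_mem_left y _
  have hu : IsUnit T := by
    refine ContinuousLinearMap.isUnit_of_forall_le_norm_inner_map T (c := ⟨c, P.pos.le⟩)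
      P.pos fun x => ?_
    rw [← inner_conj_symm, RCLike.norm_conj, hT, ← P.hC]
    have := P.coer x
    have h2 := Complex.re_le_norm ⟪C (x : H), J (x : H)⟫_ℂ
    have e : ‖x‖ = ‖(x : H)‖ := rfl
    change ‖x‖ ^ 2 * c ≤ _
    rw [e]; linarith
  obtain ⟨x, hx⟩ := (ContinuousLinearMap.isUnit_iff_bijective.mp hu).2
    (K.orthogonalProjectionOnto (J (C a)))
  refine ⟨a - x, ⟨fun b hb => ?_, fun b hb => ?_⟩, by simp⟩
  · rw [map_sub, inner_sub_right, ha b hb, P.clos_le x.2 b hb, sub_zero]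
  · have hb' : b ∈ K := B.le_topologicalClosure hb
    have h1 := hT x ⟨b, hb'⟩
    rw [hx, K.inner_orthogonalProjectionOnto_eq_of_mem_left] at h1
    rw [P.hC, map_sub, map_sub, inner_sub_right]
    exact sub_eq_zero.mpr h1

end Pol

end Pool.Agent.Lib.MP_5c318e_ag.Abs
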