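import Pool.Agent.Lib.MP_5c318e_ag.H.AbsA

/-!
The induced structure on the finite dimensional quotient (closed modulo closure of exact) and
its variation with a parameter.
-/

namespace Pool.Agent.Lib.MP_5c318e_ag.Abs

open scoped InnerProductSpace
open Filter Topology

variable {H : Type*} [NormedAddCommGroup H] [InnerProductSpace ℂ H]
variable {W : Type*} [NormedAddCommGroup W] [NormedSpace ℂ W]

/-- `j` presents the quotient of the closed elements by the closure of `B`. -/
structure Rep (J : H →L[ℂ] H) (B : Submodule ℂ H) (j : W →ₗ[ℂ] H) : Prop where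
  mem : ∀ w, j w ∈ Zc J B
  surj : ∀ a ∈ Zc J B, ∃ w, a - j w ∈ B.topologicalClosure
  inj : ∀ w, j w ∈ B.topologicalClosure → w = 0

/-- the form on the quotient -/
noncomputable def QW (J : H →L[ℂ] H) (j : W →ₗ[ℂ] H) (w w' : W) : ℂ := ⟪j w, J (j w')⟫_ℂ

/-- the harmonic representative -/
noncomputable def iota (J C : H →L[ℂ] H) (B : Submodule ℂ H) (j : W →ₗ[ℂ] H) : W →L[ℂ] H :=
  Classical.epsilon fun i : W →L[ℂ] H =>
    ∀ w, i w ∈ Harm J C B ∧ i w - j w ∈ B.topologicalClosure

/-- the operator induced on the quotient -/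
noncomputable def ind (J C : H →L[ℂ] H) (B : Submodule ℂ H) (j : W →ₗ[ℂ] H) (T : H →L[ℂ] H) :
    W →L[ℂ] W :=
  Classical.epsilon fun t : W →L[ℂ] W =>
    ∀ w, T (iota J C B j w) - j (t w) ∈ B.topologicalClosure

theorem QW_add (J : H →L[ℂ] H) (j : W →ₗ[ℂ] H) (w a b : W) :
    QW J j w (a + b) = QW J j w a + QW J j w b := by
  simp [QW]

theorem QW_sub (J : H →L[ℂ] H) (j : W →ₗ[ℂ] H) (w a b : W) :
    QW J j w (a - b) = QW J j w a - QW J j w b := by
  simp [QW]

theorem QW_smul (J : H →L[ℂ] H) (j : W →ₗ[ℂ] H) (w a : W) (t : ℂ) :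
    QW J j w (t • a) = t * QW J j w a := by
  simp [QW]

theorem Rep.unique {J : H →L[ℂ] H} {B : Submodule ℂ H} {j : W →ₗ[ℂ] H} (R : Rep J B j)
    {a : H} {w w' : W} (h : a - j w ∈ B.topologicalClosure)
    (h' : a - j w' ∈ B.topologicalClosure) : w = w' := by
  have := B.topologicalClosure.sub_mem h' h
  rw [sub_sub_sub_cancel_left, ← map_sub] at this
  exact sub_eq_zero.mp (R.inj _ this)

namespace Pol

variable [CompleteSpace H] [FiniteDimensional ℂ W]
variable {J C Y : H →L[ℂ] H} {B : Submodule ℂ H} {c : ℝ} {j : W →ₗ[ℂ] H}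
  (P : Pol J C Y B c) (R : Rep J B j)
include P R

theorem iota_spec (w : W) :
    iota J C B j w ∈ Harm J C B ∧ iota J C B j w - j w ∈ B.topologicalClosure := by
  have hex : ∃ i : W →L[ℂ] H, ∀ w, i w ∈ Harm J C B ∧ i w - j w ∈ B.topologicalClosure := by
    choose u hu hb using fun w => P.exists_harm (R.mem w)
    let l : W →ₗ[ℂ] H :=
      { toFun := u
        map_add' := fun a b => by
          refine sub_eq_zero.mp (P.harm_unique
            (Submodule.sub_mem _ (hu _) (Submodule.add_mem _ (hu a) (hu b))) ?_)
          have := Submodule.sub_mem _ (hb (a + b)) (Submodule.add_mem _ (hb a) (hb b))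
          rw [map_add] at this
          convert this using 1
          abel
        map_smul' := fun t a => by
          refine sub_eq_zero.mp (P.harm_unique
            (Submodule.sub_mem _ (hu _) (Submodule.smul_mem _ t (hu a))) ?_)
          have := Submodule.sub_mem _ (hb (t • a)) (Submodule.smul_mem _ t (hb a))
          rw [map_smul, smul_sub] at this
          convert this using 1
          simp }
    exact ⟨LinearMap.toContinuousLinearMap l, fun w => ⟨hu w, hb w⟩⟩
  exact Classical.epsilon_spec hex w

theorem iota_harm (w : W) : iota J C B j w ∈ Harm J C B := (P.iota_spec R w).1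

theorem iota_sub (w : W) : iota J C B j w - j w ∈ B.topologicalClosure := (P.iota_spec R w).2

/-- characterisation of the harmonic representative -/
theorem eq_iota {a : H} {w : W} (ha : a ∈ Harm J C B) (h : a - j w ∈ B.topologicalClosure) :
    a = iota J C B j w := by
  refine sub_eq_zero.mp (P.harm_unique (Submodule.sub_mem _ ha (P.iota_harm R w)) ?_)
  have := Submodule.sub_mem _ h (P.iota_sub R w)
  rwa [sub_sub_sub_cancel_right] at this

theorem exists_iota {a : H} (ha : a ∈ Harm J C B) : ∃ w, a = iota J C B j w := by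
  obtain ⟨w, h⟩ := R.surj a (Harm_le ha)
  exact ⟨w, P.eq_iota R ha h⟩

theorem iota_inj {w : W} (h : iota J C B j w = 0) : w = 0 := by
  have := P.iota_sub R w
  rw [h, zero_sub, neg_mem_iff] at this
  exact R.inj w this

theorem iota_injective : Function.Injective (iota J C B j) :=
  (injective_iff_map_eq_zero _).mpr fun _ h => P.iota_inj R h

omit [CompleteSpace H] [FiniteDimensional ℂ W] in
/-- the form only depends on the classes -/
theorem Q_eq {a a' : H} {w w' : W} (h : a - j w ∈ B.topologicalClosure)
    (h' : a' - j w' ∈ B.topologicalClosure) : ⟪a, J a'⟫_ℂ = QW J j w w' := by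
  have ha' : a' ∈ Zc J B := by
    have := Submodule.add_mem _ (P.clos_le h') (R.mem w')
    rwa [sub_add_cancel] at this
  have e1 := Zc_clos ha' h
  have e2 := P.Zc_clos' (R.mem w) h'
  rw [inner_sub_left] at e1
  rw [map_sub, inner_sub_right] at e2
  rw [QW, ← sub_eq_zero.mp e2, ← sub_eq_zero.mp e1]

theorem Q_iota (w w' : W) : ⟪iota J C B j w, J (iota J C B j w')⟫_ℂ = QW J j w w' :=
  P.Q_eq R (P.iota_sub R w) (P.iota_sub R w')

omit [CompleteSpace H] P in
theorem ind_spec {T : H →L[ℂ] H} (hT : ∀ w, T (iota J C B j w) ∈ Zc J B) (w : W) :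
    T (iota J C B j w) - j (ind J C B j T w) ∈ B.topologicalClosure := by
  have hex : ∃ t : W →L[ℂ] W, ∀ w, T (iota J C B j w) - j (t w) ∈ B.topologicalClosure := by
    choose u hu using fun w => R.surj _ (hT w)
    let l : W →ₗ[ℂ] W :=
      { toFun := u
        map_add' := fun a b => by
          refine R.unique (hu (a + b)) ?_
          have := Submodule.add_mem _ (hu a) (hu b)
          rw [map_add, map_add, map_add]
          convert this using 1
          abel
        map_smul' := fun t a => by
          refine R.unique (hu (t • a)) ?_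
          have := Submodule.smul_mem _ t (hu a)
          rw [map_smul, map_smul, RingHom.id_apply, map_smul, ← smul_sub]
          exact this }
    exact ⟨LinearMap.toContinuousLinearMap l, hu⟩
  exact Classical.epsilon_spec hex w

/-- an operator that preserves the harmonic space commutes with the harmonic representative -/
theorem iota_ind {T : H →L[ℂ] H} (hT : ∀ a ∈ Harm J C B, T a ∈ Harm J C B) (w : W) :
    iota J C B j (ind J C B j T w) = T (iota J C B j w) :=
  (P.eq_iota R (hT _ (P.iota_harm R w))
    (ind_spec R (fun w => Harm_le (hT _ (P.iota_harm R w))) w)).symm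

theorem iota_Y (w : W) : iota J C B j (ind J C B j Y w) = Y (iota J C B j w) :=
  P.iota_ind R (fun _ h => P.Y_harm h) w

theorem iota_C (w : W) : iota J C B j (ind J C B j C w) = C (iota J C B j w) :=
  P.iota_ind R (fun _ h => P.C_harm h) w

theorem iota_aeval (p : Polynomial ℂ) (w : W) :
    iota J C B j (Polynomial.aeval (ind J C B j Y) p w) =
      Polynomial.aeval Y p (iota J C B j w) := by
  induction p using Polynomial.induction_on generalizing w with
  | C a => simp [Algebra.algebraMap_eq_smul_one]
  | add p q hp hq => simp [hp, hq]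
  | monomial n a h =>
    rw [pow_succ, ← mul_assoc, map_mul, map_mul (Polynomial.aeval Y), Polynomial.aeval_X,
      Polynomial.aeval_X, mul_apply_eq_comp, mul_apply_eq_comp, h,
      P.iota_Y R]

/-- polynomial identities pass to the quotient -/
theorem aeval_ind_eq_zero {p : Polynomial ℂ} (h : Polynomial.aeval Y p = 0) :
    Polynomial.aeval (ind J C B j Y) p = 0 := by
  ext w
  refine P.iota_inj R ?_
  rw [P.iota_aeval R, h]
  rfl

theorem ind_C_eq {p : Polynomial ℂ} (h : C = Polynomial.aeval Y p) :
    ind J C B j C = Polynomial.aeval (ind J C B j Y) p := by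
  ext w
  refine P.iota_injective R ?_
  rw [P.iota_aeval R, ← h, P.iota_C R]

omit [CompleteSpace H] [FiniteDimensional ℂ W] R in
theorem QW_conj (w w' : W) : (starRingEnd ℂ) (QW J j w w') = QW J j w' w := P.conj_Q _ _

theorem QW_Y (w w' : W) : QW J j (ind J C B j Y w) w' = QW J j w (ind J C B j Y w') := by
  rw [← P.Q_iota R, ← P.Q_iota R, P.iota_Y R, P.iota_Y R, P.hY]

theorem QW_C (w w' : W) : QW J j (ind J C B j C w) w' = QW J j w (ind J C B j C w') := by
  rw [← P.Q_iota R, ← P.Q_iota R, P.iota_C R, P.iota_C R, P.hC]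

/-- the Hodge norm on the quotient is the norm of the harmonic representative -/
theorem QW_C_eq (w w' : W) :
    QW J j (ind J C B j C w) w' = ⟪C (iota J C B j w), J (iota J C B j w')⟫_ℂ := by
  rw [← P.Q_iota R, P.iota_C R]

theorem QW_pos {w : W} (hw : w ≠ 0) : 0 < (QW J j (ind J C B j C w) w).re := by
  rw [P.QW_C_eq R]
  refine lt_of_lt_of_le (mul_pos P.pos (pow_pos (norm_pos_iff.mpr ?_) 2)) (P.coer _)
  exact fun h => hw (P.iota_inj R h)

theorem QW_nondeg {w : W} (h : ∀ w', QW J j w' w = 0) : w = 0 := by
  by_contra hw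
  have := P.QW_pos R hw
  rw [h] at this
  exact lt_irrefl _ this

/-- eigenvectors of the grading correspond -/
theorem ind_Y_eigen_iff (t : ℂ) (w : W) :
    ind J C B j Y w = t • w ↔ Y (iota J C B j w) = t • iota J C B j w := by
  rw [← P.iota_Y R, ← map_smul]
  exact (P.iota_injective R).eq_iff.symm

end Pol

end Pool.Agent.Lib.MP_5c318e_ag.Abs
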