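import Pool.Agent.Lib.MP_5c318e_ag.H.AbsB

/-!
Variation of the induced grading: strong differentiability upstairs gives differentiability on the
finite dimensional quotient, and the derivative is the compression of the derivative upstairs.
-/

namespace Pool.Agent.Lib.MP_5c318e_ag.Abs

open scoped InnerProductSpace
open Filter Topology Asymptotics

variable {H : Type*} [NormedAddCommGroup H] [InnerProductSpace ℂ H]
variable {W : Type*} [NormedAddCommGroup W] [NormedSpace ℂ W]
variable {E : Type*} [NormedAddCommGroup E] [NormedSpace ℝ E]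

/-- pairing of a continuous function with a differentiable function that vanishes at the point -/
theorem hasFDerivAt_inner_zero {u g : E → H} {t : E} {D : E →L[ℝ] H} (hu : ContinuousAt u t)
    (hg : HasFDerivAt g D t) (h0 : g t = 0) :
    HasFDerivAt (fun s => ⟪u s, g s⟫_ℂ)
      (((innerSL ℂ (u t)).restrictScalars ℝ).comp D) t := by
  have h1 : HasFDerivAt (fun s => ⟪u t, g s⟫_ℂ)
      (((innerSL ℂ (u t)).restrictScalars ℝ).comp D) t :=
    ((innerSL ℂ (u t)).restrictScalars ℝ).hasFDerivAt.comp t hg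
  have h2 : HasFDerivAt (fun s => ⟪u s - u t, g s⟫_ℂ) (0 : E →L[ℝ] ℂ) t := by
    rw [hasFDerivAt_iff_isLittleO]
    have a1 : (fun s => ‖u s - u t‖) =o[𝓝 t] fun _ => (1 : ℝ) := by
      rw [isLittleO_one_iff]
      exact (tendsto_iff_norm_sub_tendsto_zero.mp hu.tendsto)
    have a2 : (fun s => ‖g s‖) =O[𝓝 t] fun s => ‖s - t‖ := by
      have := hg.isBigO_sub
      simp only [h0, sub_zero] at this
      exact this.norm_norm
    have a3 := a1.mul_isBigO a2
    simp only [one_mul] at a3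
    refine IsBigO.trans_isLittleO ?_ a3.of_norm_right
    refine IsBigO.of_bound 1 (Eventually.of_forall fun s => ?_)
    simp only [sub_self, inner_zero_left, sub_zero, zero_apply, one_mul]
    exact (norm_inner_le_norm _ _).trans (le_abs_self _)
  have := h2.add h1
  rw [zero_add] at this
  refine this.congr_of_eventuallyEq (Eventually.of_forall fun s => ?_)
  simp

variable [CompleteSpace H] [FiniteDimensional ℂ W]
variable {J : H →L[ℂ] H} {B : Submodule ℂ H} {j : W →ₗ[ℂ] H}

/-- the exact difference formula -/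
theorem QW_diff {C Y C' Y' : H →L[ℂ] H} {c c' : ℝ} (P : Pol J C Y B c) (P' : Pol J C' Y' B c')
    (R : Rep J B j) (w w' : W) :
    QW J j w' (ind J C B j Y w) - QW J j w' (ind J C' B j Y' w) =
      ⟪iota J C B j w', J (Y (iota J C' B j w) - Y' (iota J C' B j w))⟫_ℂ := by
  have e1 : QW J j w' (ind J C B j Y w) = ⟪iota J C B j w', J (Y (iota J C' B j w))⟫_ℂ := by
    rw [← P.hY, ← P.QW_Y R, ← P.iota_Y R]
    exact (P.Q_eq R (P.iota_sub R _) (P'.iota_sub R _)).symm
  have e2 : QW J j w' (ind J C' B j Y' w) = ⟪iota J C B j w', J (Y' (iota J C' B j w))⟫_ℂ := by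
    rw [← P'.iota_Y R]
    exact (P.Q_eq R (P.iota_sub R _) (P'.iota_sub R _)).symm
  rw [e1, e2, map_sub, inner_sub_right]

theorem norm_iota_sub_le {C Y C' Y' : H →L[ℂ] H} {c c' : ℝ} (P : Pol J C Y B c)
    (P' : Pol J C' Y' B c') (R : Rep J B j) (w : W) :
    c * ‖iota J C B j w - iota J C' B j w‖ ≤
      ‖J‖ * ‖C (iota J C' B j w) - C' (iota J C' B j w)‖ := by
  refine P.norm_sub_le (P.iota_harm R w) ?_ fun b hb => ?_
  · have := Submodule.sub_mem _ (P.iota_sub R w) (P'.iota_sub R w)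
    rwa [sub_sub_sub_cancel_right] at this
  · rw [← P'.hC]
    exact Harm_clos (P'.iota_harm R w) hb

theorem continuousAt_iota {X : Type*} [TopologicalSpace X] {Cs Ys : X → H →L[ℂ] H} {t : X} {c : ℝ}
    (hP : ∀ᶠ s in 𝓝 t, Pol J (Cs s) (Ys s) B c) (R : Rep J B j)
    (hC : ∀ a, ContinuousAt (fun s => Cs s a) t) (w : W) :
    ContinuousAt (fun s => iota J (Cs s) B j w) t := by
  have P := hP.self_of_nhds
  rw [ContinuousAt, tendsto_iff_norm_sub_tendsto_zero]
  have h1 : Tendsto (fun s => c⁻¹ * (‖J‖ * ‖Cs s (iota J (Cs t) B j w) -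
      Cs t (iota J (Cs t) B j w)‖)) (𝓝 t) (𝓝 0) := by
    have := ((tendsto_iff_norm_sub_tendsto_zero.mp (hC (iota J (Cs t) B j w)).tendsto).const_mul
      ‖J‖).const_mul c⁻¹
    simpa using this
  refine squeeze_zero' (Eventually.of_forall fun _ => norm_nonneg _) ?_ h1
  filter_upwards [hP] with s hs
  rw [le_inv_mul_iff₀ P.pos]
  exact norm_iota_sub_le hs P R w

/-- derivative of a matrix coefficient of the induced grading -/
theorem hasFDerivAt_coeff {Cs Ys : E → H →L[ℂ] H} {t : E} {c : ℝ}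
    (hP : ∀ᶠ s in 𝓝 t, Pol J (Cs s) (Ys s) B c) (R : Rep J B j)
    (hC : ∀ a, ContinuousAt (fun s => Cs s a) t) {D : H → E →L[ℝ] H}
    (hD : ∀ a, HasFDerivAt (fun s => Ys s a) (D a) t) (w w' : W) :
    HasFDerivAt (fun s => QW J j w' (ind J (Cs s) B j (Ys s) w))
      (((innerSL ℂ (iota J (Cs t) B j w')).restrictScalars ℝ).comp
        ((J.restrictScalars ℝ).comp (D (iota J (Cs t) B j w)))) t := by
  have P := hP.self_of_nhds
  have hg : HasFDerivAt (fun s => J (Ys s (iota J (Cs t) B j w) - Ys t (iota J (Cs t) B j w)))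
      ((J.restrictScalars ℝ).comp (D (iota J (Cs t) B j w))) t :=
    (J.restrictScalars ℝ).hasFDerivAt.comp t ((hD _).sub_const _)
  have h1 := hasFDerivAt_inner_zero (continuousAt_iota hP R hC w') hg (by simp)
  refine (h1.add_const (QW J j w' (ind J (Cs t) B j (Ys t) w))).congr_of_eventuallyEq ?_
  filter_upwards [hP] with s hs
  rw [← QW_diff hs P R, sub_add_cancel]

/-- the functional `T ↦ QW w' (T w)` -/
noncomputable def coeffL (J : H →L[ℂ] H) (j : W →ₗ[ℂ] H) (w w' : W) : (W →L[ℂ] W) →L[ℂ] ℂ :=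
  LinearMap.toContinuousLinearMap
    { toFun := fun T => QW J j w' (T w)
      map_add' := fun S T => by simp [QW_add]
      map_smul' := fun t T => by simp [QW_smul] }

omit [CompleteSpace H] in
theorem coeffL_apply (J : H →L[ℂ] H) (j : W →ₗ[ℂ] H) (w w' : W) (T : W →L[ℂ] W) :
    coeffL J j w w' T = QW J j w' (T w) := rfl

/-- VARIATION: the induced grading is differentiable, its derivative is the compression -/
theorem hasFDerivAt_ind {Cs Ys : E → H →L[ℂ] H} {t : E} {c : ℝ}
    (hP : ∀ᶠ s in 𝓝 t, Pol J (Cs s) (Ys s) B c) (R : Rep J B j)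
    (hC : ∀ a, ContinuousAt (fun s => Cs s a) t) {D : H → E →L[ℝ] H}
    (hD : ∀ a, HasFDerivAt (fun s => Ys s a) (D a) t) :
    ∃ DW : E →L[ℝ] (W →L[ℂ] W), HasFDerivAt (fun s => ind J (Cs s) B j (Ys s)) DW t ∧
      ∀ v w w', QW J j w' (DW v w) =
        ⟪iota J (Cs t) B j w', J (D (iota J (Cs t) B j w) v)⟫_ℂ := by
  have P := hP.self_of_nhds
  let b := Module.finBasis ℂ W
  let Ψ : (W →L[ℂ] W) →L[ℂ] (Fin (Module.finrank ℂ W) × Fin (Module.finrank ℂ W) → ℂ) :=
    ContinuousLinearMap.pi fun x => coeffL J j (b x.1) (b x.2)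
  have hΨ : LinearMap.ker Ψ.toLinearMap = ⊥ := by
    rw [LinearMap.ker_eq_bot']
    intro T hT
    have h1 : ∀ i, T (b i) = 0 := by
      intro i
      refine P.QW_nondeg R fun w' => ?_
      have h2 : ∀ k, QW J j (T (b i)) (b k) = 0 := fun k => by
        rw [← P.QW_conj]
        have := congrFun hT (i, k)
        change QW J j (b k) (T (b i)) = 0 at this
        rw [this, map_zero]
      rw [← P.QW_conj, ← b.sum_repr w']
      have : QW J j (T (b i)) (∑ k, b.repr w' k • b k) = 0 := by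
        simp only [QW, map_sum, map_smul, inner_sum, inner_smul_right] at h2 ⊢
        simp [h2]
      rw [this, map_zero]
    exact ContinuousLinearMap.coe_injective (b.ext fun i => h1 i)
  obtain ⟨L, hL⟩ := LinearMap.exists_leftInverse_of_injective _ hΨ
  have hL' : ∀ T, L (Ψ T) = T := fun T => LinearMap.congr_fun hL T
  have h1 : DifferentiableAt ℝ (fun s => Ψ (ind J (Cs s) B j (Ys s))) t :=
    differentiableAt_pi.mpr fun x => (hasFDerivAt_coeff hP R hC hD (b x.1) (b x.2)).differentiableAt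
  have h2 : DifferentiableAt ℝ (fun s => ind J (Cs s) B j (Ys s)) t := by
    have := ((LinearMap.toContinuousLinearMap L).restrictScalars ℝ).differentiableAt.comp t h1
    refine this.congr_of_eventuallyEq (Eventually.of_forall fun s => ?_)
    exact (hL' _).symm
  refine ⟨_, h2.hasFDerivAt, fun v w w' => ?_⟩
  have h3 := ((coeffL J j w w').restrictScalars ℝ).hasFDerivAt.comp t h2.hasFDerivAt
  exact DFunLike.congr_fun (h3.unique (hasFDerivAt_coeff hP R hC hD w w')) v

/-- VARIATION with the transversality axiom `[Y, dY v] = i dY (i v)` -/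
theorem ind_axiom {E : Type*} [NormedAddCommGroup E] [NormedSpace ℂ E]
    {Cs Ys : E → H →L[ℂ] H} {t : E} {c : ℝ}
    (hP : ∀ᶠ s in 𝓝 t, Pol J (Cs s) (Ys s) B c) (R : Rep J B j)
    (hC : ∀ a, ContinuousAt (fun s => Cs s a) t) {D : H → E →L[ℝ] H}
    (hD : ∀ a, HasFDerivAt (fun s => Ys s a) (D a) t)
    (hA : ∀ a v, Ys t (D a v) - D (Ys t a) v = Complex.I • D a (Complex.I • v)) :
    DifferentiableAt ℝ (fun s => ind J (Cs s) B j (Ys s)) t ∧ ∀ v,
      ind J (Cs t) B j (Ys t) * fderiv ℝ (fun s => ind J (Cs s) B j (Ys s)) t v -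
        fderiv ℝ (fun s => ind J (Cs s) B j (Ys s)) t v * ind J (Cs t) B j (Ys t) =
      Complex.I • fderiv ℝ (fun s => ind J (Cs s) B j (Ys s)) t (Complex.I • v) := by
  have P := hP.self_of_nhds
  obtain ⟨DW, h1, h2⟩ := hasFDerivAt_ind hP R hC hD
  refine ⟨h1.differentiableAt, fun v => ?_⟩
  rw [h1.fderiv]
  ext w
  refine sub_eq_zero.mp (P.QW_nondeg R fun w' => ?_)
  rw [QW_sub, sub_apply, QW_sub, smul_apply, QW_smul,
    mul_apply_eq_comp, mul_apply_eq_comp, ← P.QW_Y R, h2, h2, h2, P.iota_Y R, P.iota_Y R, P.hY,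
    ← inner_sub_right, ← map_sub, hA, map_smul, inner_smul_right, sub_self]

end Pool.Agent.Lib.MP_5c318e_ag.Abs
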