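import Pool.Agent.Lib.MP_5c318e_ag.V.Der

/-! Test functions in the plane, integration by parts and the radial kernels. -/

set_option autoImplicit false

namespace Pool.Agent.Lib.MP_5c318e_ag.Ell

open Complex Filter Topology MeasureTheory Set Metric V
open scoped ContDiff ComplexConjugate Real

noncomputable section

/-- a smooth function with compact support inside `U` -/
structure Test (U : Set ℂ) (φ : ℂ → ℂ) : Prop where
  sm : ContDiff ℝ ∞ φ
  cs : HasCompactSupport φ
  sub : tsupport φ ⊆ U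

theorem der_eq_zero_of_notMem {φ : ℂ → ℂ} {x : ℂ} (hx : x ∉ tsupport φ) (c ξ : ℂ) :
    der c ξ φ x = 0 := by
  rw [der_congr (notMem_tsupport_iff_eventuallyEq.1 hx)]
  exact der_const 0

theorem tsupport_der (φ : ℂ → ℂ) (c ξ : ℂ) : tsupport (der c ξ φ) ⊆ tsupport φ :=
  closure_minimal (fun x hx => by
    by_contra h
    exact hx (der_eq_zero_of_notMem h c ξ)) (isClosed_tsupport φ)

namespace Test

variable {U : Set ℂ} {φ : ℂ → ℂ}

theorem der (h : Test U φ) (c ξ : ℂ) : Test U (der c ξ φ) :=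
  ⟨contDiff_iff_contDiffAt.2 fun _ => Sm.der h.sm.contDiffAt c ξ,
    h.cs.of_isClosed_subset (isClosed_tsupport _) (tsupport_der φ c ξ),
    (tsupport_der φ c ξ).trans h.sub⟩

theorem mono (h : Test U φ) {V : Set ℂ} (hV : U ⊆ V) : Test V φ := ⟨h.sm, h.cs, h.sub.trans hV⟩

theorem zero (h : Test U φ) {x : ℂ} (hx : x ∉ U) : φ x = 0 :=
  image_eq_zero_of_notMem_tsupport fun hh => hx (h.sub hh)

theorem mul (h : Test U φ) {f : ℂ → ℂ} (hf : ∀ x ∈ U, Sm f x) : Test U fun x => φ x * f x := by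
  refine ⟨contDiff_iff_contDiffAt.2 fun x => ?_, h.cs.mul_right, ?_⟩
  · by_cases hx : x ∈ tsupport φ
    · exact h.sm.contDiffAt.mul (hf x (h.sub hx))
    · refine (contDiffAt_const (c := (0 : ℂ))).congr_of_eventuallyEq ?_
      filter_upwards [notMem_tsupport_iff_eventuallyEq.1 hx] with y hy
      rw [hy, Pi.zero_apply, zero_mul]
  · exact (tsupport_mul_subset_left (f := φ) (g := f)).trans h.sub

theorem integrable (h : Test U φ) {f : ℂ → ℂ} (hf : LocallyIntegrableOn f U) :
    Integrable fun x => φ x * f x := by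
  have h1 : IntegrableOn f (tsupport φ) := hf.integrableOn_compact_subset h.sub h.cs
  have h2 := IntegrableOn.continuousOn_mul (g := φ) h.sm.continuous.continuousOn h1 h.cs
  refine (integrableOn_iff_integrable_of_support_subset ?_).1 h2
  exact (Function.support_mul_subset_left φ f).trans (subset_tsupport φ)

theorem integrable' (h : Test U φ) : Integrable φ :=
  h.sm.continuous.integrable_of_hasCompactSupport h.cs

theorem int_pd (h : Test U φ) (v : ℂ) : ∫ x, fderiv ℝ φ x v = 0 := by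
  have h1 : Integrable fun x => fderiv ℝ φ x v :=
    ((h.sm.continuous_fderiv (by simp)).clm_apply continuous_const).integrable_of_hasCompactSupport
      (h.cs.fderiv_apply ℝ v)
  have := integral_mul_fderiv_eq_neg_fderiv_mul_of_integrable (μ := (volume : Measure ℂ))
    (f := fun _ : ℂ => (1 : ℂ)) (g := φ) (v := v) (by simp) (by simpa using h1)
    (by simpa using h.integrable') (fun _ _ => differentiableAt_const _)
    (fun x _ => Sm.diff h.sm.contDiffAt)
  simpa using this

theorem int_der (h : Test U φ) (c ξ : ℂ) : ∫ x, V.der c ξ φ x = 0 := by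
  have h1 : ∀ v, Integrable fun x => fderiv ℝ φ x v := fun v =>
    ((h.sm.continuous_fderiv (by simp)).clm_apply continuous_const).integrable_of_hasCompactSupport
      (h.cs.fderiv_apply ℝ v)
  simp only [V.der]
  rw [integral_div, integral_add (h1 _) ((h1 _).const_mul c), integral_const_mul, h.int_pd,
    h.int_pd]
  simp

theorem der_mul (h : Test U φ) {f : ℂ → ℂ} (hf : ∀ x ∈ U, Sm f x) (c ξ x : ℂ) :
    V.der c ξ (fun y => φ y * f y) x = V.der c ξ φ x * f x + φ x * V.der c ξ f x := by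
  by_cases hx : x ∈ tsupport φ
  · exact V.der_mul (Sm.diff h.sm.contDiffAt) (hf x (h.sub hx)).diff
  · rw [der_eq_zero_of_notMem hx, image_eq_zero_of_notMem_tsupport hx,
      der_eq_zero_of_notMem fun hh => hx (tsupport_mul_subset_left (f := φ) (g := f) hh)]
    simp

/-- integration by parts -/
theorem parts (h : Test U φ) {f : ℂ → ℂ} (hf : ∀ x ∈ U, Sm f x) (c ξ : ℂ) :
    ∫ x, V.der c ξ φ x * f x = -∫ x, φ x * V.der c ξ f x := by
  have h1 := (h.mul hf).int_der c ξ
  simp only [h.der_mul hf] at h1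
  rw [integral_add ((h.der c ξ).mul hf).integrable'
    (h.mul fun x hx => (hf x hx).der c ξ).integrable'] at h1
  exact eq_neg_of_add_eq_zero_left h1

theorem ofReal {g : ℂ → ℝ} (h1 : ContDiff ℝ ∞ g) (h2 : HasCompactSupport g)
    (h3 : tsupport g ⊆ U) : Test U fun x => (g x : ℂ) :=
  ⟨ofRealCLM.contDiff.comp h1, h2.comp_left (g := fun r : ℝ => (r : ℂ)) ofReal_zero,
    (tsupport_comp_subset (g := fun r : ℝ => (r : ℂ)) ofReal_zero g).trans h3⟩

end Test

/-- the fundamental lemma of the calculus of variations -/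
theorem ae_zero_of_test {U : Set ℂ} (hU : IsOpen U) {f : ℂ → ℂ} (hf : LocallyIntegrableOn f U)
    (h : ∀ φ, Test U φ → ∫ x, φ x * f x = 0) : ∀ᵐ x, x ∈ U → f x = 0 :=
  hU.ae_eq_zero_of_integral_contDiff_smul_eq_zero hf fun g h1 h2 h3 => by
    simpa using h _ (Test.ofReal h1 h2 h3)

theorem locInt_of_sm {U : Set ℂ} (hU : IsOpen U) {f : ℂ → ℂ} (hf : ∀ x ∈ U, Sm f x) :
    LocallyIntegrableOn f U :=
  ContinuousOn.locallyIntegrableOn (fun x hx => (hf x hx).continuousAt.continuousWithinAt)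
    hU.measurableSet

/-! ### the profile -/

def al (t : ℝ) : ℝ := Real.smoothTransition (4 * t - 1)
def be (t : ℝ) : ℝ := al t / t
def lg (t : ℝ) : ℝ := ∫ s in (1 : ℝ)..t, be s

theorem al_sm : ContDiff ℝ ∞ al := Real.smoothTransition.contDiff.comp (by fun_prop)

theorem al_zero {t : ℝ} (ht : t ≤ 1 / 4) : al t = 0 :=
  Real.smoothTransition.zero_of_nonpos (by linarith)

theorem al_one {t : ℝ} (ht : 1 / 2 ≤ t) : al t = 1 :=
  Real.smoothTransition.one_of_one_le (by linarith)

theorem al_nonneg (t : ℝ) : 0 ≤ al t := Real.smoothTransition.nonneg _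

theorem al_le (t : ℝ) : al t ≤ 1 := Real.smoothTransition.le_one _

theorem al_mono : Monotone al := fun s t h => Real.smoothTransition.monotone (by linarith)

theorem dal_zero {t : ℝ} (ht : t < 1 / 4 ∨ 1 / 2 < t) : deriv al t = 0 := by
  rcases ht with ht | ht
  · have : al =ᶠ[𝓝 t] fun _ => 0 := (eventually_lt_nhds ht).mono fun s hs => al_zero hs.le
    rw [this.deriv_eq, deriv_const]
  · have : al =ᶠ[𝓝 t] fun _ => 1 := (eventually_gt_nhds ht).mono fun s hs => al_one hs.le
    rw [this.deriv_eq, deriv_const]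

theorem dal_sm : ContDiff ℝ ∞ (deriv al) := (contDiff_infty_iff_deriv.1 al_sm).2

theorem dal_bdd : ∃ A, ∀ t, 0 ≤ deriv al t ∧ deriv al t ≤ A := by
  have h7 : HasCompactSupport (deriv al) :=
    HasCompactSupport.intro (isCompact_Icc (a := 0) (b := 1)) fun t ht => dal_zero (by
      by_contra hc
      push Not at hc
      exact ht ⟨by linarith [hc.1], by linarith [hc.2]⟩)
  obtain ⟨A, hA⟩ := dal_sm.continuous.bounded_above_of_compact_support h7
  exact ⟨A, fun t => ⟨al_mono.deriv_nonneg, (le_abs_self _).trans (hA t)⟩⟩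

/-- the mass of the kernel -/
def cc : ℝ := ∫ ζ : ℂ, deriv al (‖ζ‖ ^ 2)

theorem cc_pos : 0 < cc := by
  obtain ⟨t, ht, ht'⟩ := exists_deriv_eq_slope al zero_lt_one al_sm.continuous.continuousOn
    (al_sm.differentiable (by simp)).differentiableOn
  rw [al_zero (t := 0) (by norm_num), al_one (t := 1) (by norm_num)] at ht'
  refine Continuous.integral_pos_of_hasCompactSupport_nonneg_nonzero (x := (√t : ℝ))
    (dal_sm.continuous.comp (continuous_norm.pow 2))
    (HasCompactSupport.intro (isCompact_closedBall 0 1) fun ζ hζ => dal_zero (Or.inr ?_))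
    (fun ζ => al_mono.deriv_nonneg) ?_
  · rw [mem_closedBall_zero_iff, not_le] at hζ
    nlinarith
  · rw [Complex.norm_real, Real.norm_eq_abs, sq_abs, Real.sq_sqrt ht.1.le, ht']
    norm_num

theorem be_sm : ContDiff ℝ ∞ be := by
  refine contDiff_iff_contDiffAt.2 fun t => ?_
  by_cases ht : t = 0
  · refine (contDiffAt_const (c := (0 : ℝ))).congr_of_eventuallyEq ?_
    filter_upwards [eventually_lt_nhds (show t < 1 / 4 by rw [ht]; norm_num)] with s hs
    rw [be, al_zero hs.le, zero_div]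
  · exact al_sm.contDiffAt.div contDiffAt_id ht

theorem mul_be (t : ℝ) : t * be t = al t := by
  by_cases ht : t = 0
  · rw [ht, zero_mul, al_zero (by norm_num)]
  · rw [be, mul_div_cancel₀ _ ht]

theorem dal_eq (t : ℝ) : deriv al t = be t + t * deriv be t := by
  have h := (hasDerivAt_id t).mul ((be_sm.differentiable (by simp)) t).hasDerivAt
  have e : al = id * be := funext fun s => (mul_be s).symm
  rw [e, h.deriv]
  simp

theorem lg_deriv (t : ℝ) : HasDerivAt lg (be t) t :=
  (be_sm.continuous.integral_hasStrictDerivAt 1 t).hasDerivAt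

theorem lg_sm : ContDiff ℝ ∞ lg := by
  refine contDiff_infty_iff_deriv.2 ⟨fun t => (lg_deriv t).differentiableAt, ?_⟩
  rw [show deriv lg = be from funext fun t => (lg_deriv t).deriv]
  exact be_sm

theorem lg_eq {t : ℝ} (ht : 1 / 2 ≤ t) : lg t = Real.log t := by
  have h : ∫ s in (1 : ℝ)..t, be s = ∫ s in (1 : ℝ)..t, s⁻¹ := by
    refine intervalIntegral.integral_congr fun s hs => ?_
    have : 1 / 2 ≤ s := le_trans (le_min (by norm_num) ht) hs.1
    rw [be, al_one this, one_div]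
  rw [lg, h, integral_inv_of_pos one_pos (by linarith), div_one]

/-- `x` or its conjugate -/
def ww (c x : ℂ) : ℂ := x.re + c * x.im

theorem ww_mul {c : ℂ} (hc : c = I ∨ c = -I) (x : ℂ) :
    ww c x * ww (-c) x = ((‖x‖ ^ 2 : ℝ) : ℂ) := by
  have h : c * c = -1 := by rcases hc with h | h <;> simp [h]
  rw [Complex.sq_norm, normSq_apply, ww, ww]
  push_cast
  linear_combination (-(x.im : ℂ) * x.im) * h

theorem norm_ww {c : ℂ} (hc : c = I ∨ c = -I) (x : ℂ) : ‖ww c x‖ = ‖x‖ := by
  rcases hc with h | h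
  · rw [h, ww, mul_comm, re_add_im]
  · have : ww c x = conj x := by
      rw [h, ww]
      apply Complex.ext <;> simp
    rw [this, norm_conj]

theorem ww_hasF (c y x : ℂ) : HasFDerivAt (fun x => ww c (x - y))
    (ofRealCLM.comp reCLM + c • ofRealCLM.comp imCLM) x := by
  have h := ((ofRealCLM.comp reCLM + c • ofRealCLM.comp imCLM : ℂ →L[ℝ] ℂ).hasFDerivAt
    (x := x - y)).comp x ((hasFDerivAt_id x).sub_const y)
  simpa [ww, Function.comp_def] using h

theorem ww_sm (c y : ℂ) : ContDiff ℝ ∞ fun x => ww c (x - y) := by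
  have h := (ofRealCLM.comp reCLM + c • ofRealCLM.comp imCLM : ℂ →L[ℝ] ℂ).contDiff (n := ∞)
  simpa [ww, Function.comp_def] using h.comp (contDiff_id.sub (contDiff_const (c := y)))

theorem der_ww (c c' y x : ℂ) : der c 1 (fun x => ww c' (x - y)) x = (1 + c * c') / 2 := by
  rw [der, (ww_hasF c' y x).fderiv]
  simp

/-- a radial function -/
def rad (g : ℝ → ℝ) (ε : ℝ) (y x : ℂ) : ℂ := (g (‖x - y‖ ^ 2 / ε ^ 2) : ℝ)

theorem rad_sm {g : ℝ → ℝ} (hg : ContDiff ℝ ∞ g) (ε : ℝ) (y : ℂ) : ContDiff ℝ ∞ (rad g ε y) :=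
  ofRealCLM.contDiff.comp (hg.comp (((contDiff_norm_sq ℝ).comp
    (contDiff_id.sub contDiff_const)).div_const _))

theorem der_rad {g : ℝ → ℝ} (hg : ContDiff ℝ ∞ g) (ε : ℝ) (c y x : ℂ) :
    der c 1 (rad g ε y) x = rad (deriv g) ε y x * ww c (x - y) / (ε : ℂ) ^ 2 := by
  have h1 : HasFDerivAt (fun x : ℂ => ‖x - y‖ ^ 2) _ x := ((hasFDerivAt_id x).sub_const y).norm_sq
  have h2 := ((hg.differentiable (by simp)) (‖x - y‖ ^ 2 / ε ^ 2)).hasDerivAt
  have h3 := ofRealCLM.hasFDerivAt.comp x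
    (h2.comp_hasFDerivAt x (h1.mul_const ((ε ^ 2)⁻¹)))
  have e : rad g ε y = ofRealCLM ∘ g ∘ fun x : ℂ => ‖x - y‖ ^ 2 * (ε ^ 2)⁻¹ := by
    funext z
    simp [rad, div_eq_mul_inv]
  rw [der, e]
  erw [h3.fderiv]
  simp [rad, ww, div_eq_mul_inv]
  ring

end

end Pool.Agent.Lib.MP_5c318e_ag.Ell
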