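import Pool.Agent.Lib.MP_5c318e_ag.H.EllA

/-! The Cauchy transform as a weak solution operator and Weyl's lemma for the Laplacian. -/

set_option autoImplicit false

namespace Pool.Agent.Lib.MP_5c318e_ag.Ell

open Complex Filter Topology MeasureTheory Set Metric V
open scoped ContDiff ComplexConjugate Real Convolution

noncomputable section

/-- the regularised Cauchy kernel -/
def kk (c : ℂ) (ε : ℝ) (y x : ℂ) : ℂ := rad be ε y x * ww (-c) (x - y) / (ε : ℂ) ^ 2

/-- the approximate identity -/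
def sg (ε : ℝ) (y x : ℂ) : ℂ := rad (deriv al) ε y x / (ε : ℂ) ^ 2

/-- the Cauchy kernel -/
def KK (c x : ℂ) : ℂ := ww (-c) x / ((‖x‖ ^ 2 : ℝ) : ℂ)

theorem kk_sm (c : ℂ) (ε : ℝ) (y : ℂ) : ContDiff ℝ ∞ (kk c ε y) :=
  ((rad_sm be_sm ε y).mul (ww_sm _ y)).div_const _

theorem sg_sm (ε : ℝ) (y : ℂ) : ContDiff ℝ ∞ (sg ε y) := (rad_sm dal_sm ε y).div_const _

theorem der_lg (c : ℂ) (ε : ℝ) (y x : ℂ) : der (-c) 1 (rad lg ε y) x = kk c ε y x := by
  rw [der_rad lg_sm, kk, show deriv lg = be from funext fun t => (lg_deriv t).deriv]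

theorem der_kk {c : ℂ} (hc : c = I ∨ c = -I) (ε : ℝ) (y x : ℂ) :
    der c 1 (kk c ε y) x = sg ε y x := by
  have h : c * c = -1 := by rcases hc with h | h <;> simp [h]
  have e : kk c ε y = fun x => ((ε : ℂ) ^ 2)⁻¹ * (rad be ε y x * ww (-c) (x - y)) := by
    funext z
    rw [kk, div_eq_inv_mul]
  have d1 := Sm.diff (rad_sm be_sm ε y).contDiffAt (x := x)
  have d2 := Sm.diff (ww_sm (-c) y).contDiffAt (x := x)
  rw [e, der_const_mul _ (d1.fun_mul d2), der_mul d1 d2, der_rad be_sm, der_ww, sg]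
  have w := ww_mul hc (x - y)
  simp only [rad, dal_eq]
  push_cast at w ⊢
  linear_combination ((ε : ℂ) ^ 2)⁻¹ * ((ε : ℂ) ^ 2)⁻¹ *
    (deriv be (‖x - y‖ ^ 2 / ε ^ 2) : ℝ) * w -
    ((ε : ℂ) ^ 2)⁻¹ * (be (‖x - y‖ ^ 2 / ε ^ 2) : ℝ) / 2 * h

theorem kk_eq (c : ℂ) {ε : ℝ} (hε : ε ≠ 0) (y x : ℂ) :
    kk c ε y x = rad al ε y x * KK c (x - y) := by
  have : (ε : ℂ) ≠ 0 := ofReal_ne_zero.2 hε
  simp only [kk, rad, be, KK]
  push_cast
  by_cases h : ((‖x - y‖ : ℝ) : ℂ) = 0
  · simp [h]
  · field_simp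

theorem norm_KK {c : ℂ} (hc : c = I ∨ c = -I) (x : ℂ) : ‖KK c x‖ = ‖x‖⁻¹ := by
  have hc' : -c = I ∨ -c = -I := by rcases hc with h | h <;> simp [h]
  rw [KK, norm_div, norm_ww hc', Complex.norm_real, norm_pow, norm_norm]
  by_cases h : ‖x‖ = 0
  · simp [h]
  · field_simp

theorem meas_KK (c : ℂ) : Measurable (KK c) := by
  unfold KK ww
  fun_prop

theorem locInt_KK {c : ℂ} (hc : c = I ∨ c = -I) : LocallyIntegrable (KK c) :=
  locallyIntegrable_of_norm_le_rpow (C := 1) (α := 1) (by simp) (by simp)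
    (Eventually.of_forall fun x => by rw [norm_KK hc, Real.rpow_neg_one, one_mul])
    (meas_KK c).aestronglyMeasurable

theorem sg_zero {ε : ℝ} (hε : 0 < ε) {y x : ℂ} (h : ε < ‖x - y‖) : sg ε y x = 0 := by
  have : 1 ≤ ‖x - y‖ ^ 2 / ε ^ 2 := by
    rw [le_div_iff₀ (by positivity), one_mul]
    gcongr
  rw [sg, rad, dal_zero (Or.inr (by linarith))]
  simp

theorem sg_tendsto {h : ℂ → ℂ} (hh : LocallyIntegrable h) :
    ∀ᵐ y, Tendsto (fun ε : ℝ => ∫ x, sg ε y x * h x) (𝓝[>] 0) (𝓝 (cc * h y)) := by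
  obtain ⟨A, hA⟩ := dal_bdd
  have hc := cc_pos
  filter_upwards [(Besicovitch.vitaliFamily volume).ae_tendsto_average_norm_sub hh] with z hz
  have key : Tendsto (fun ε : ℝ => ∫ ζ, (deriv al (‖ζ - z‖ ^ 2 / ε ^ 2) / (ε ^ 2 * cc)) • h ζ)
      (𝓝[>] 0) (𝓝 (h z)) := by
    refine tendsto_integral_smul_of_tendsto_average_norm_sub (A * π / cc)
      (hz.comp (Besicovitch.tendsto_filterAt volume z)) ?_ ?_ ?_ ?_
    · exact Eventually.of_forall fun ε => hh.integrableOn_isCompact (isCompact_closedBall _ _)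
    · refine tendsto_const_nhds.congr' ?_
      filter_upwards [self_mem_nhdsWithin] with ε (hε : 0 < ε)
      rw [integral_div, integral_sub_right_eq_self (fun ζ : ℂ => deriv al (‖ζ‖ ^ 2 / ε ^ 2)) z]
      have h1 := Measure.integral_comp_inv_smul_of_nonneg volume
        (fun ζ : ℂ => deriv al (‖ζ‖ ^ 2)) hε.le
      simp only [norm_smul, norm_inv, Real.norm_eq_abs, div_pow, sq_abs,
        Complex.finrank_real_complex, smul_eq_mul, ← div_eq_inv_mul] at h1
      rw [h1, ← cc, div_self (by positivity)]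
    · filter_upwards [self_mem_nhdsWithin] with ε (hε : 0 < ε) ζ hζ
      by_contra hcon
      apply hζ
      rw [mem_closedBall, dist_eq_norm, not_le] at hcon
      have : 1 ≤ ‖ζ - z‖ ^ 2 / ε ^ 2 := by
        rw [le_div_iff₀ (by positivity), one_mul]
        gcongr
      simp [dal_zero (Or.inr (show 1 / 2 < ‖ζ - z‖ ^ 2 / ε ^ 2 by linarith))]
    · filter_upwards [self_mem_nhdsWithin] with ε (hε : 0 < ε) ζ
      have h1 : volume.real (closedBall z ε) = π * ε ^ 2 := by
        rw [Measure.real, Complex.volume_closedBall, ENNReal.toReal_mul, ENNReal.toReal_pow,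
          ENNReal.toReal_ofReal hε.le, mul_comm]
        simp
      rw [h1, abs_of_nonneg (div_nonneg (hA _).1 (by positivity))]
      have h2 : A * π / cc / (π * ε ^ 2) = A / (ε ^ 2 * cc) := by field_simp
      rw [h2]
      gcongr
      exact (hA _).2
  refine (key.const_mul (cc : ℂ)).congr fun ε => ?_
  rw [← integral_const_mul]
  refine integral_congr_ae (Eventually.of_forall fun x => ?_)
  have : (cc : ℂ) ≠ 0 := ofReal_ne_zero.2 hc.ne'
  simp only [sg, rad, real_smul]
  push_cast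
  field_simp

/-- the Cauchy integral formula for test functions -/
theorem cauchy_test {c : ℂ} (hc : c = I ∨ c = -I) {U : Set ℂ} {φ : ℂ → ℂ} (hφ : Test U φ) :
    ∀ᵐ y, ∫ x, der c 1 φ x * KK c (x - y) = -(cc * φ y) := by
  filter_upwards [sg_tendsto hφ.sm.continuous.locallyIntegrable] with y hy
  have hi : Integrable fun x => der c 1 φ x * KK c (x - y) := by
    refine ((hφ.der c 1).mono (subset_univ _)).integrable (locallyIntegrableOn_univ.2 ?_)
    have := (locallyIntegrable_map_homeomorph (Homeomorph.subRight y) (f := KK c)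
      (μ := volume)).1 (by
        rw [show ((Homeomorph.subRight y : ℂ ≃ₜ ℂ) : ℂ → ℂ) = fun x => x - y from rfl,
          map_sub_right_eq_self]
        exact locInt_KK hc)
    exact this
  have h1 : Tendsto (fun ε : ℝ => ∫ x, der c 1 φ x * kk c ε y x) (𝓝[>] 0)
      (𝓝 (∫ x, der c 1 φ x * KK c (x - y))) := by
    refine tendsto_integral_filter_of_dominated_convergence
      (fun x => ‖der c 1 φ x * KK c (x - y)‖) (Eventually.of_forall fun ε =>
        ((hφ.der c 1).sm.continuous.mul (kk_sm c ε y).continuous).aestronglyMeasurable) ?_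
      hi.norm (Eventually.of_forall fun x => ?_)
    · filter_upwards [self_mem_nhdsWithin] with ε (hε : 0 < ε)
      refine Eventually.of_forall fun x => ?_
      rw [kk_eq c hε.ne', norm_mul, norm_mul, norm_mul]
      gcongr
      refine mul_le_of_le_one_left (norm_nonneg _) ?_
      rw [rad, Complex.norm_real, Real.norm_eq_abs, abs_of_nonneg (al_nonneg _)]
      exact al_le _
    · by_cases hx : x = y
      · simp [hx, kk, KK, ww]
      · refine tendsto_const_nhds.congr' ?_
        have hp : 0 < ‖x - y‖ := norm_pos_iff.2 (sub_ne_zero.2 hx)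
        filter_upwards [Ioo_mem_nhdsGT hp] with ε hε
        have : 1 ≤ ‖x - y‖ ^ 2 / ε ^ 2 := by
          have := hε.1
          rw [le_div_iff₀ (by positivity), one_mul]
          gcongr
          exact hε.2.le
        rw [kk_eq c hε.1.ne', rad, al_one (by linarith)]
        simp
  refine tendsto_nhds_unique h1 (hy.neg.congr fun ε => ?_)
  rw [hφ.parts fun x _ => (kk_sm c ε y).contDiffAt]
  simp only [der_kk hc, mul_comm]

/-- weak solution of `der c 1 u = f` on a ball -/
theorem solve {c : ℂ} (hc : c = I ∨ c = -I) {x₀ : ℂ} {r : ℝ} {f : ℂ → ℂ}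
    (hf : IntegrableOn f (ball x₀ r)) : ∃ u : ℂ → ℂ, Integrable u ∧
      (Test (ball x₀ r) f → ContDiff ℝ ∞ u) ∧
      ∀ φ, Test (ball x₀ r) φ → ∫ x, der c 1 φ x * u x = -∫ x, φ x * f x := by
  have hc0 : (cc : ℂ) ≠ 0 := ofReal_ne_zero.2 cc_pos.ne'
  set F := (ball x₀ r).indicator f with hF
  set K := (closedBall (0 : ℂ) (2 * r)).indicator (KK c) with hK
  have iF : Integrable F := (integrable_indicator_iff measurableSet_ball).2 hf
  have iK : Integrable K := (integrable_indicator_iff measurableSet_closedBall).2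
    ((locInt_KK hc).integrableOn_isCompact (isCompact_closedBall _ _))
  have iP := iF.convolution_integrand (ContinuousLinearMap.mul ℝ ℂ) iK
  simp only [ContinuousLinearMap.mul_apply'] at iP
  refine ⟨fun x => (cc : ℂ)⁻¹ * ∫ y, F y * K (x - y), iP.integral_prod_left.const_mul _,
    fun tf => ?_, fun φ hφ => ?_⟩
  · have e : F = f := funext fun x => by
      by_cases hx : x ∈ ball x₀ r
      · exact indicator_of_mem hx f
      · rw [hF, indicator_of_notMem hx, tf.zero hx]
    rw [e]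
    exact contDiff_const.mul (tf.cs.contDiff_convolution_left (ContinuousLinearMap.mul ℝ ℂ) tf.sm
      iK.locallyIntegrable)
  have hψ := hφ.der c 1
  obtain ⟨A, hA⟩ := hψ.sm.continuous.bounded_above_of_compact_support hψ.cs
  have iQ : Integrable (Function.uncurry fun x y => der c 1 φ x * (F y * K (x - y)))
      (volume.prod volume) :=
    iP.bdd_mul (c := A) (hψ.sm.continuous.comp continuous_fst).aestronglyMeasurable
      (Eventually.of_forall fun p => hA _)
  have e1 : ∀ x, der c 1 φ x * ((cc : ℂ)⁻¹ * ∫ y, F y * K (x - y)) =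
      (cc : ℂ)⁻¹ * ∫ y, der c 1 φ x * (F y * K (x - y)) := fun x => by
    rw [integral_const_mul]
    ring
  simp only [e1]
  rw [integral_const_mul, integral_integral_swap iQ, ← integral_neg, ← integral_const_mul]
  refine integral_congr_ae ?_
  filter_upwards [cauchy_test hc hφ] with y hy
  by_cases hyb : y ∈ ball x₀ r
  · have e2 : ∀ x, der c 1 φ x * (F y * K (x - y)) = f y * (der c 1 φ x * KK c (x - y)) := by
      intro x
      by_cases hx : x ∈ ball x₀ r
      · have : x - y ∈ closedBall (0 : ℂ) (2 * r) := by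
          rw [mem_closedBall_zero_iff, ← dist_eq_norm]
          linarith [dist_triangle_right x y x₀, mem_ball.1 hx, mem_ball.1 hyb]
        rw [hF, hK, indicator_of_mem hyb, indicator_of_mem this]
        ring
      · rw [hψ.zero hx, zero_mul, zero_mul, mul_zero]
    simp only [e2]
    rw [integral_const_mul, hy]
    field_simp
  · simp [hF, indicator_of_notMem hyb, hφ.zero hyb]

/-- Weyl's lemma for the Laplacian -/
theorem weyl {x₀ : ℂ} {r : ℝ} (hr : 0 < r) {H : ℂ → ℂ} (hH : LocallyIntegrable H)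
    (h : ∀ φ, Test (ball x₀ (2 * r)) φ → ∫ x, der I 1 (der (-I) 1 φ) x * H x = 0) :
    ∃ G : ℂ → ℂ, ContDiff ℝ ∞ G ∧ ∀ᵐ y, y ∈ ball x₀ r → H y = G y := by
  have hc0 : (cc : ℂ) ≠ 0 := ofReal_ne_zero.2 cc_pos.ne'
  have tS : ∀ {ε : ℝ}, 0 < ε → ∀ y, Test univ (sg ε y) := fun {ε} hε y =>
    ⟨sg_sm ε y, HasCompactSupport.intro (isCompact_closedBall y ε) fun x hx => sg_zero hε (by
      rwa [mem_closedBall, dist_eq_norm, not_le] at hx), subset_univ _⟩
  have s1 : ContDiff ℝ ∞ (H ⋆[ContinuousLinearMap.mul ℝ ℂ, volume] sg r 0) :=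
    (tS hr 0).cs.contDiff_convolution_right _ hH (sg_sm r 0)
  refine ⟨fun y => (cc : ℂ)⁻¹ * (H ⋆[ContinuousLinearMap.mul ℝ ℂ, volume] sg r 0) y,
    contDiff_const.mul s1, ?_⟩
  filter_upwards [sg_tendsto hH] with y hy hyb
  have e1 : (H ⋆[ContinuousLinearMap.mul ℝ ℂ, volume] sg r 0) y = ∫ x, sg r y x * H x := by
    simp only [convolution_def, ContinuousLinearMap.mul_apply', sg, rad, sub_zero, norm_sub_rev y,
      mul_comm]
  have e2 : ∀ ε ∈ Ioo 0 r, ∫ x, sg ε y x * H x = ∫ x, sg r y x * H x := by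
    intro ε hε
    have hε0 := hε.1
    let φ : ℂ → ℂ := fun x => rad lg ε y x - rad lg r y x - ((Real.log (r ^ 2 / ε ^ 2) : ℝ) : ℂ)
    have z : ∀ x, x ∉ closedBall y r → φ x = 0 := fun x hx => by
      rw [mem_closedBall, dist_eq_norm, not_le] at hx
      have hp : 0 < ‖x - y‖ := hr.trans hx
      have a1 : 1 ≤ ‖x - y‖ ^ 2 / r ^ 2 := by
        rw [le_div_iff₀ (by positivity), one_mul]
        gcongr
      have a2 : 1 ≤ ‖x - y‖ ^ 2 / ε ^ 2 := by
        rw [le_div_iff₀ (by positivity), one_mul]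
        gcongr
        exact (hε.2.trans hx).le
      simp only [φ, rad]
      rw [lg_eq (by linarith), lg_eq (by linarith), Real.log_div (by positivity) (by positivity),
        Real.log_div (by positivity) (by positivity), Real.log_div (by positivity) (by positivity)]
      push_cast
      ring
    have tφ : Test (ball x₀ (2 * r)) φ :=
      ⟨((rad_sm lg_sm ε y).sub (rad_sm lg_sm r y)).sub contDiff_const,
        HasCompactSupport.intro (isCompact_closedBall y r) z,
        (closure_minimal (fun x hx => by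
          by_contra hh
          exact hx (z x hh)) isClosed_closedBall).trans (closedBall_subset_ball' (by
            linarith [mem_ball.1 hyb]))⟩
    have d1 : der (-I) 1 φ = fun x => kk I ε y x - kk I r y x := by
      funext x
      have a1 := Sm.diff (rad_sm lg_sm ε y).contDiffAt (x := x)
      have a2 := Sm.diff (rad_sm lg_sm r y).contDiffAt (x := x)
      simp only [φ]
      rw [der_sub (a1.fun_sub a2) (differentiableAt_const _), der_sub a1 a2, der_const, der_lg, der_lg,
        sub_zero]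
    have d2 : ∀ x, der I 1 (der (-I) 1 φ) x * H x = sg ε y x * H x - sg r y x * H x := by
      intro x
      rw [d1, der_sub (Sm.diff (kk_sm I ε y).contDiffAt) (Sm.diff (kk_sm I r y).contDiffAt),
        der_kk (Or.inl rfl), der_kk (Or.inl rfl), sub_mul]
    have := h φ tφ
    simp only [d2] at this
    rw [integral_sub ((tS hε0 y).integrable (hH.locallyIntegrableOn _))
      ((tS hr y).integrable (hH.locallyIntegrableOn _))] at this
    exact sub_eq_zero.1 this
  have h3 : Tendsto (fun ε : ℝ => ∫ x, sg ε y x * H x) (𝓝[>] 0) (𝓝 (∫ x, sg r y x * H x)) := by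
    refine tendsto_const_nhds.congr' ?_
    filter_upwards [Ioo_mem_nhdsGT hr] with ε hε
    exact (e2 ε hε).symm
  rw [e1, ← tendsto_nhds_unique hy h3]
  field_simp

theorem exists_cut (x₀ : ℂ) {r s : ℝ} (hr : 0 < r) (hs : r < s) :
    ∃ χ, Test (ball x₀ s) χ ∧ ∀ x ∈ ball x₀ r, χ x = 1 := by
  let b : ContDiffBump x₀ := ⟨r, (r + s) / 2, hr, by linarith⟩
  refine ⟨fun x => (b x : ℂ), Test.ofReal b.contDiff b.hasCompactSupport ?_, fun x hx => ?_⟩
  · rw [b.tsupport_eq]
    exact closedBall_subset_ball (show (r + s) / 2 < s by linarith)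
  · simp only [b.one_of_mem_closedBall (ball_subset_closedBall hx), ofReal_one]

/-- Weyl's lemma for the Laplacian with a smooth source -/
theorem weyl_src {x₀ : ℂ} {r : ℝ} (hr : 0 < r) {H f : ℂ → ℂ} (hH : LocallyIntegrable H)
    (hf : ∀ x ∈ ball x₀ (3 * r), Sm f x)
    (h : ∀ φ, Test (ball x₀ (2 * r)) φ →
      ∫ x, der I 1 (der (-I) 1 φ) x * H x = ∫ x, φ x * f x) :
    ∃ G : ℂ → ℂ, ContDiff ℝ ∞ G ∧ ∀ᵐ y, y ∈ ball x₀ r → H y = G y := by
  obtain ⟨χ, tχ, h1⟩ := exists_cut x₀ (show 0 < 2 * r by linarith) (show 2 * r < 3 * r by linarith)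
  have t1 := tχ.mul hf
  obtain ⟨u, -, su, hu⟩ := solve (c := -I) (x₀ := x₀) (r := 3 * r) (Or.inr rfl)
    t1.integrable'.integrableOn
  have t2 := tχ.mul (f := u) fun x _ => (su t1).contDiffAt
  obtain ⟨v, iv, sv, hv⟩ := solve (c := I) (x₀ := x₀) (r := 3 * r) (Or.inl rfl)
    t2.integrable'.integrableOn
  have sub : ball x₀ (2 * r) ⊆ ball x₀ (3 * r) := ball_subset_ball (by linarith)
  have cut : ∀ ψ g : ℂ → ℂ, Test (ball x₀ (2 * r)) ψ →
      ∫ x, ψ x * (χ x * g x) = ∫ x, ψ x * g x := by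
    intro ψ g tψ
    refine integral_congr_ae (Eventually.of_forall fun x => ?_)
    by_cases hx : x ∈ ball x₀ (2 * r)
    · simp only [h1 x hx, one_mul]
    · simp only [tψ.zero hx, zero_mul]
  obtain ⟨G, sG, hG⟩ := weyl (x₀ := x₀) hr (hH.sub iv.locallyIntegrable) fun φ hφ => by
    have t := (hφ.der (-I) 1).der I 1
    simp only [Pi.sub_apply, mul_sub]
    rw [integral_sub (t.integrable (hH.locallyIntegrableOn _))
      (t.integrable (iv.locallyIntegrable.locallyIntegrableOn _)), h φ hφ,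
      hv _ ((hφ.der (-I) 1).mono sub), cut _ _ (hφ.der (-I) 1), hu _ (hφ.mono sub), cut _ _ hφ,
      neg_neg, sub_self]
  refine ⟨fun y => G y + v y, sG.add (sv t2), hG.mono fun y hy hb => ?_⟩
  exact eq_add_of_sub_eq (hy hb)

/-- the weak derivative of a smooth function -/
theorem ae_eq_der {U : Set ℂ} (hU : IsOpen U) {c : ℂ} {u G f : ℂ → ℂ}
    (hf : LocallyIntegrableOn f U) (hG : ∀ x ∈ U, Sm G x) (e : ∀ᵐ x, x ∈ U → u x = G x)
    (h : ∀ φ, Test U φ → ∫ x, der c 1 φ x * u x = -∫ x, φ x * f x) :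
    ∀ᵐ x, x ∈ U → f x = der c 1 G x := by
  have i2 := locInt_of_sm hU fun x hx => (hG x hx).der c 1
  have := ae_zero_of_test hU (hf.sub i2) fun φ hφ => by
    have e1 : ∫ x, der c 1 φ x * u x = ∫ x, der c 1 φ x * G x := by
      refine integral_congr_ae (e.mono fun x hx => ?_)
      by_cases hxU : x ∈ U
      · simp only [hx hxU]
      · simp only [(hφ.der c 1).zero hxU, zero_mul]
    have e2 := h φ hφ
    rw [e1, hφ.parts hG, neg_inj] at e2
    simp only [Pi.sub_apply, mul_sub]
    rw [integral_sub (hφ.integrable hf) (hφ.integrable i2), e2, sub_self]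
  exact this.mono fun x hx hxU => sub_eq_zero.1 (hx hxU)

end

end Pool.Agent.Lib.MP_5c318e_ag.Ell
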