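import Pool.Agent.Lib.MP_5c318e_ag.V.LV
import Pool.Agent.Lib.MP_9ff3e7_ag.F.Osg

/-! A differentiable grading with the transversality axiom is smooth; holomorphic frames. -/

set_option autoImplicit false
set_option linter.unusedSectionVars false

namespace Pool.Agent.Lib.MP_5c318e_ag.V

open Complex Filter Topology Matrix
open scoped ContDiff ComplexConjugate ComplexOrder

noncomputable section

variable {E : Type*} [NormedAddCommGroup E] [NormedSpace ℂ E]
variable {m n k : Type*} [Fintype m] [Fintype n] [Fintype k] [DecidableEq m] [DecidableEq n]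
  [DecidableEq k]

section scalar

variable {f : E → ℂ} {x : E}

theorem holo_of_dbar (hf : DifferentiableAt ℝ f x) (h : ∀ ξ, der I ξ f x = 0) :
    DifferentiableAt ℂ f x := by
  have e : ∀ ξ, fderiv ℝ f x (I • ξ) = I * fderiv ℝ f x ξ := fun ξ => by
    have := h ξ
    rw [der] at this
    linear_combination (-2 * I) * this + fderiv ℝ f x (I • ξ) * I_mul_I
  let L : E →L[ℂ] ℂ :=
    { toFun := fderiv ℝ f x
      map_add' := map_add _
      map_smul' := fun a ξ => by
        rw [smul_split a ξ, map_add, map_smul, map_smul, e]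
        simp only [real_smul, RingHom.id_apply, smul_eq_mul]
        conv_rhs => rw [← re_add_im a]
        ring
      cont := (fderiv ℝ f x).continuous }
  exact (differentiableAt_iff_restrictScalars ℝ hf).mpr ⟨L, rfl⟩

theorem analyticAt_of_holo [FiniteDimensional ℂ E] (h : ∀ᶠ y in 𝓝 x, DifferentiableAt ℂ f y) :
    AnalyticAt ℂ f x := by
  let e : E ≃L[ℂ] (Fin (Module.finrank ℂ E) → ℂ) := ContinuousLinearEquiv.ofFinrankEq (by simp)
  obtain ⟨U, hU, ho, hx⟩ := eventually_nhds_iff.mp h
  have a : AnalyticAt ℂ (fun w => f (e.symm w)) (e x) :=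
    MP_9ff3e7_ag.F.osgood (U := e.symm ⁻¹' U) (ho.preimage e.symm.continuous)
      (fun w hw => ((hU _ hw).comp w e.symm.differentiableAt).differentiableWithinAt) _
      (by simpa using hx)
  have b := AnalyticAt.comp (g := fun w => f (e.symm w)) (f := e) a (e.analyticAt x)
  refine b.congr (.of_forall fun y => ?_)
  simp

theorem sm_of_holo [FiniteDimensional ℂ E] (h : ∀ᶠ y in 𝓝 x, DifferentiableAt ℂ f y) : Sm f x :=
  ((analyticAt_of_holo h).contDiffAt (n := ∞)).restrict_scalars ℝ

theorem sm_of_dbar [FiniteDimensional ℂ E]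
    (h : ∀ᶠ y in 𝓝 x, DifferentiableAt ℝ f y ∧ ∀ ξ, der I ξ f y = 0) : Sm f x :=
  sm_of_holo (h.mono fun _ hy => holo_of_dbar hy.1 hy.2)

theorem df_conj (hf : DifferentiableAt ℝ f x) : DifferentiableAt ℝ (fun y => conj (f y)) x :=
  (conjCLE : ℂ →L[ℝ] ℂ).differentiableAt.comp x hf

theorem sm_of_d [FiniteDimensional ℂ E]
    (h : ∀ᶠ y in 𝓝 x, DifferentiableAt ℝ f y ∧ ∀ ξ, der (-I) ξ f y = 0) : Sm f x := by
  have : Sm (fun y => conj (f y)) x := sm_of_dbar (h.mono fun y hy =>
    ⟨df_conj hy.1, fun ξ => by rw [der_conj hy.1, conj_I, hy.2, map_zero]⟩)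
  simpa using this.conj

end scalar

/-- entrywise real differentiable at `x` -/
def DfM {m n : Type*} (f : E → Matrix m n ℂ) (x : E) : Prop :=
  ∀ i j, DifferentiableAt ℝ (fun y => f y i j) x

section matrix

variable {c : ℂ} {ξ x : E}

theorem SmM.df {f : E → Matrix m n ℂ} (hf : SmM f x) : DfM f x := fun i j => (hf i j).diff

theorem dfM_const (A : Matrix m n ℂ) : DfM (fun _ : E => A) x :=
  fun _ _ => differentiableAt_const _

theorem DfM.add {f g : E → Matrix m n ℂ} (hf : DfM f x) (hg : DfM g x) :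
    DfM (fun y => f y + g y) x := fun i j => DifferentiableAt.add (hf i j) (hg i j)

theorem DfM.sub {f g : E → Matrix m n ℂ} (hf : DfM f x) (hg : DfM g x) :
    DfM (fun y => f y - g y) x := fun i j => DifferentiableAt.sub (hf i j) (hg i j)

theorem DfM.mul {f : E → Matrix m n ℂ} {g : E → Matrix n k ℂ} (hf : DfM f x) (hg : DfM g x) :
    DfM (fun y => f y * g y) x := fun i j => by
  simp only [Matrix.mul_apply]
  exact DifferentiableAt.fun_sum fun l _ => DifferentiableAt.mul (hf i l) (hg l j)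

theorem DfM.ct {f : E → Matrix m n ℂ} (hf : DfM f x) : DfM (fun y => (f y)ᴴ) x :=
  fun i j => df_conj (hf j i)

theorem DfM.det {f : E → Matrix n n ℂ} (hf : DfM f x) :
    DifferentiableAt ℝ (fun y => (f y).det) x := by
  simp only [Matrix.det_apply']
  exact DifferentiableAt.fun_sum fun σ _ => (differentiableAt_const _).mul
    (HasFDerivAt.finsetProd (u := Finset.univ) (g := fun i y => f y (σ i) i)
      fun i _ => (hf (σ i) i).hasFDerivAt).differentiableAt

theorem DfM.inv {f : E → Matrix n n ℂ} (hf : DfM f x) (h0 : (f x).det ≠ 0) :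
    DfM (fun y => (f y)⁻¹) x := fun i j => by
  simp only [Matrix.inv_def, Matrix.smul_apply, Ring.inverse_eq_inv', smul_eq_mul,
    Matrix.adjugate_apply]
  refine DifferentiableAt.mul (hf.det.inv h0) (DfM.det fun a b => ?_)
  simp only [Matrix.updateRow_apply]
  split_ifs
  · exact differentiableAt_const _
  · exact hf a b

theorem DfM.congr {f g : E → Matrix m n ℂ} (hf : DfM f x) (h : g =ᶠ[𝓝 x] f) : DfM g x :=
  fun i j => (hf i j).congr_of_eventuallyEq (h.mono fun _ hy => by simp only [hy])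

theorem DfM.derM_add {f g : E → Matrix m n ℂ} (hf : DfM f x) (hg : DfM g x) :
    derM c ξ (fun y => f y + g y) x = derM c ξ f x + derM c ξ g x := by
  ext i j
  exact der_add (hf i j) (hg i j)

theorem DfM.derM_sub {f g : E → Matrix m n ℂ} (hf : DfM f x) (hg : DfM g x) :
    derM c ξ (fun y => f y - g y) x = derM c ξ f x - derM c ξ g x := by
  ext i j
  exact der_sub (hf i j) (hg i j)

theorem DfM.derM_mul {f : E → Matrix m n ℂ} {g : E → Matrix n k ℂ} (hf : DfM f x)
    (hg : DfM g x) :
    derM c ξ (fun y => f y * g y) x = derM c ξ f x * g x + f x * derM c ξ g x := by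
  ext i j
  simp only [derM, Matrix.of_apply, Matrix.mul_apply, Matrix.add_apply]
  rw [der_sum _ fun l _ => (hf i l).fun_mul (hg l j), ← Finset.sum_add_distrib]
  exact Finset.sum_congr rfl fun l _ => der_mul (hf i l) (hg l j)

theorem DfM.derM_ct {f : E → Matrix m n ℂ} (hf : DfM f x) :
    derM c ξ (fun y => (f y)ᴴ) x = (derM (conj c) ξ f x)ᴴ := by
  ext i j
  exact der_conj (hf j i)

theorem DfM.aeval {Y : E → Matrix n n ℂ} (hY : DfM Y x) (p : Polynomial ℂ) :
    DfM (fun y => Polynomial.aeval (Y y) p) x := by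
  induction p using Polynomial.induction_on with
  | C a => simpa using dfM_const _
  | add p q hp hq => simpa using hp.add hq
  | monomial l a h =>
    simpa only [pow_succ, ← mul_assoc, map_mul, Polynomial.aeval_X] using h.mul hY

/-- the derivative of a polynomial in `Y` has the same degree as the derivative of `Y` -/
theorem DfM.aeval_deg {Y : E → Matrix n n ℂ} (hY : DfM Y x) {d : ℂ}
    (h : derM c ξ Y x * Y x - Y x * derM c ξ Y x = d • derM c ξ Y x) (p : Polynomial ℂ) :
    derM c ξ (fun y => Polynomial.aeval (Y y) p) x * Y x -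
      Y x * derM c ξ (fun y => Polynomial.aeval (Y y) p) x =
      d • derM c ξ (fun y => Polynomial.aeval (Y y) p) x := by
  induction p using Polynomial.induction_on with
  | C a => simp [derM_const]
  | add p q hp hq =>
    simp only [map_add]
    rw [(hY.aeval p).derM_add (hY.aeval q), smul_add, ← hp, ← hq]
    noncomm_ring
  | monomial l a ih =>
    have e : (fun y => Polynomial.aeval (Y y) (Polynomial.C a * Polynomial.X ^ (l + 1))) =
        fun y => Polynomial.aeval (Y y) (Polynomial.C a * Polynomial.X ^ l) * Y y := by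
      funext y
      simp only [pow_succ, ← mul_assoc, map_mul, Polynomial.aeval_X]
    have cm : Polynomial.aeval (Y x) (Polynomial.C a * Polynomial.X ^ l) * Y x =
        Y x * Polynomial.aeval (Y x) (Polynomial.C a * Polynomial.X ^ l) := by
      have := congrArg (Polynomial.aeval (Y x))
        (mul_comm (Polynomial.C a * Polynomial.X ^ l) Polynomial.X)
      rwa [map_mul _ _ Polynomial.X, map_mul _ Polynomial.X, Polynomial.aeval_X] at this
    rw [e, (hY.aeval _).derM_mul hY, smul_add, ← Matrix.smul_mul, ← Matrix.mul_smul, ← ih, ← h]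
    linear_combination (norm := noncomm_ring) cm * derM c ξ Y x

/-- frames of the image of an idempotent that are killed by `der c` -/
theorem idem_frame {P : E → Matrix n n ℂ}
    (h : ∀ᶠ y in 𝓝 x, DfM P y ∧ P y * P y = P y ∧ ∀ ξ, (1 - P y) * derM c ξ P y = 0) :
    ∃ e : E → Matrix n n ℂ, e x = P x ∧ ∀ᶠ y in 𝓝 x, DfM e y ∧ P y * e y = e y ∧
      P x * e y = P x ∧ e y * P x = e y ∧ ∀ ξ, derM c ξ e y = 0 := by
  obtain ⟨d0, i0, -⟩ := h.self_of_nhds
  have dT : ∀ y, DfM P y → DfM (fun z => P x * P z + (1 - P x)) y := fun y hy =>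
    ((dfM_const _).mul hy).add (dfM_const _)
  have u1 : ∀ᶠ y in 𝓝 x, (P x * P y + (1 - P x)).det ≠ 0 :=
    (dT x d0).det.continuousAt.eventually_ne (by simp [i0])
  have u2 : ∀ᶠ y in 𝓝 x, (P y * P x + (1 - P y)).det ≠ 0 :=
    ((d0.mul (dfM_const _)).add ((dfM_const _).sub d0)).det.continuousAt.eventually_ne
      (by simp [i0])
  have key : ∀ᶠ y in 𝓝 x, DfM (fun z => P z * (P x * P z + (1 - P x))⁻¹ * P x) y ∧
      P y * (P y * (P x * P y + (1 - P x))⁻¹ * P x) = P y * (P x * P y + (1 - P x))⁻¹ * P x ∧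
      P x * (P y * (P x * P y + (1 - P x))⁻¹ * P x) = P x := by
    filter_upwards [h, u1] with y hy hu
    refine ⟨(hy.1.mul ((dT y hy.1).inv hu)).mul (dfM_const _), ?_, ?_⟩
    · rw [← Matrix.mul_assoc, ← Matrix.mul_assoc, hy.2.1]
    · have t := Matrix.mul_nonsing_inv _ (isUnit_iff_ne_zero.mpr hu)
      generalize (P x * P y + (1 - P x))⁻¹ = T at *
      linear_combination (norm := noncomm_ring) P x * t * P x - i0 * P y * T * P x + i0 * T * P x
        + i0
  refine ⟨fun z => P z * (P x * P z + (1 - P x))⁻¹ * P x, by simp [i0], ?_⟩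
  filter_upwards [h, u2, key, key.eventually_nhds] with y hy hu k0 k1
  refine ⟨k0.1, k0.2.1, k0.2.2, by rw [Matrix.mul_assoc, i0], fun ξ => ?_⟩
  have a1 : derM c ξ (fun z => P z * (P z * (P x * P z + (1 - P x))⁻¹ * P x)) y =
      derM c ξ (fun z => P z * (P x * P z + (1 - P x))⁻¹ * P x) y :=
    derM_congr (k1.mono fun _ hz => hz.2.1)
  have a2 : derM c ξ (fun z => P x * (P z * (P x * P z + (1 - P x))⁻¹ * P x)) y =
      derM c ξ (fun _ => P x) y := derM_congr (k1.mono fun _ hz => hz.2.2)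
  rw [hy.1.derM_mul k0.1] at a1
  rw [(dfM_const _).derM_mul k0.1, derM_const, Matrix.zero_mul, zero_add] at a2
  have t := Matrix.nonsing_inv_mul _ (isUnit_iff_ne_zero.mpr hu)
  have z := hy.2.2 ξ
  have i := hy.2.1
  generalize derM c ξ (fun z => P z * (P x * P z + (1 - P x))⁻¹ * P x) y = D at *
  generalize P y * (P x * P y + (1 - P x))⁻¹ * P x = e at *
  have b : (P y * P x + (1 - P y)) * D = 0 := by
    linear_combination (norm := noncomm_ring) P y * a2 - (1 - P y) * a1 + z * e - i * D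
  rw [← Matrix.one_mul D, ← t, Matrix.mul_assoc, b, Matrix.mul_zero]

/-- an idempotent with holomorphic image and antiholomorphic kernel is smooth -/
theorem idem_smooth [FiniteDimensional ℂ E] {P : E → Matrix n n ℂ}
    (h : ∀ᶠ y in 𝓝 x, DfM P y ∧ P y * P y = P y ∧ (∀ ξ, (1 - P y) * derM I ξ P y = 0) ∧
      ∀ ξ, P y * derM (-I) ξ P y = 0) : SmM P x := by
  obtain ⟨e, e0, he⟩ := idem_frame (c := I) (h.mono fun _ hy => ⟨hy.1, hy.2.1, hy.2.2.1⟩)
  obtain ⟨f, f0, hf⟩ := idem_frame (c := -I) (P := fun y => 1 - P y) (x := x)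
    (h.mono fun y hy => ⟨(dfM_const _).sub hy.1, by
      linear_combination (norm := noncomm_ring) hy.2.1, fun ξ => by
      rw [(dfM_const _).derM_sub hy.1, derM_const, sub_sub_cancel, zero_sub, Matrix.mul_neg,
        hy.2.2.2, neg_zero]⟩)
  have se : SmM e x := fun i j => sm_of_dbar (he.mono fun y hy =>
    ⟨hy.1 i j, fun ξ => congrFun (congrFun (hy.2.2.2.2 ξ) i) j⟩)
  have sf : SmM f x := fun i j => sm_of_d (hf.mono fun y hy =>
    ⟨hy.1 i j, fun ξ => congrFun (congrFun (hy.2.2.2.2 ξ) i) j⟩)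
  have g0 : (e x + f x).det ≠ 0 := by simp [e0, f0]
  have u : ∀ᶠ y in 𝓝 x, (e y + f y).det ≠ 0 :=
    (se.add sf).det.continuousAt.eventually_ne g0
  refine (se.mul ((se.add sf).inv g0)).congr ?_
  filter_upwards [h, he, hf, u] with y hy a b hu
  have t := Matrix.mul_nonsing_inv _ (isUnit_iff_ne_zero.mpr hu)
  have r : P y * (e y + f y) = e y := by
    linear_combination (norm := noncomm_ring) a.2.1 - P y * b.2.1 - hy.2.1 * f y
  rw [← Matrix.mul_one (P y), ← t, ← Matrix.mul_assoc, r]

end matrix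

namespace Prj

variable {S : Finset ℤ} {P : ℤ → Matrix n n ℂ}

theorem aeval_sum (H : Prj S P) (c : ℤ → ℂ) (f : Polynomial ℂ) :
    Polynomial.aeval (∑ q ∈ S, c q • P q) f = ∑ q ∈ S, f.eval (c q) • P q := by
  induction f using Polynomial.induction_on with
  | C a => simp [← Finset.smul_sum, H.sum, Algebra.algebraMap_eq_smul_one]
  | add p q hp hq => simp [hp, hq, add_smul, Finset.sum_add_distrib]
  | monomial l a ih =>
    rw [pow_succ, ← mul_assoc, map_mul, Polynomial.aeval_X, ih, H.sum_mul_sum]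
    simp

theorem eq_zero (H : Prj S P) {A : Matrix m n ℂ} (h : ∀ r, A * P r = 0) : A = 0 := by
  rw [← Matrix.mul_one A, ← H.sum, Matrix.mul_sum]
  exact Finset.sum_eq_zero fun r _ => h r

end Prj

/-- a polynomial with prescribed values on `S` -/
theorem exists_interp (S : Finset ℤ) (v : ℤ → ℂ) :
    ∃ f : Polynomial ℂ, ∀ q ∈ S, f.eval (q : ℂ) = v q :=
  ⟨Lagrange.interpolate S (fun q => (q : ℂ)) v, fun _ hq =>
    Lagrange.eval_interpolate_at_node v (fun _ _ _ _ h => Int.cast_injective h) hq⟩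

/-- the projector on the filtration step `F^p` -/
def fil (S : Finset ℤ) (π : ℤ → E → Matrix n n ℂ) (p : ℤ) (x : E) : Matrix n n ℂ :=
  ∑ q ∈ S, (if p ≤ q then (1 : ℂ) else 0) • π q x

theorem Prj.fil_mul {S : Finset ℤ} {π : ℤ → E → Matrix n n ℂ} {x : E}
    (H : Prj S fun p => π p x) (p q : ℤ) :
    fil S π p x * π q x = (if p ≤ q then (1 : ℂ) else 0) • π q x := H.sum_mul _ q

theorem Prj.fil_idem {S : Finset ℤ} {π : ℤ → E → Matrix n n ℂ} {x : E}
    (H : Prj S fun p => π p x) (p : ℤ) : fil S π p x * fil S π p x = fil S π p x := by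
  rw [fil, H.sum_mul_sum]
  exact Finset.sum_congr rfl fun q _ => by split_ifs <;> simp

theorem Prj.fil_sub {S : Finset ℤ} {π : ℤ → E → Matrix n n ℂ} {x : E}
    (H : Prj S fun p => π p x) (p : ℤ) : π p x = fil S π p x - fil S π (p + 1) x := by
  rw [← Matrix.mul_one (_ - _), ← H.sum, Finset.mul_sum, Finset.sum_eq_single p]
  · rw [Matrix.sub_mul, H.fil_mul, H.fil_mul]
    simp
  · intro q _ hq
    rw [Matrix.sub_mul, H.fil_mul, H.fil_mul]
    by_cases h : p ≤ q
    · rw [if_pos h, if_pos (by omega), sub_self]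
    · rw [if_neg h, if_neg (by omega), sub_self]
  · exact fun hp => by rw [H.zero p hp, Matrix.mul_zero]

/-- the differentiable version of `LV`: only the grading element is assumed differentiable -/
structure DLV (U : Set E) (Q : Matrix n n ℂ) (S : Finset ℤ) (π : ℤ → E → Matrix n n ℂ) :
    Prop where
  op : IsOpen U
  df : ∀ x ∈ U, DfM (gr S π) x
  prj : ∀ x ∈ U, Prj S fun p => π p x
  adj : ∀ x ∈ U, ∀ p, (π p x)ᴴ * Q = Q * π p x
  pos : ∀ x ∈ U, (Q * wey S π x).PosDef
  ax : ∀ x ∈ U, ∀ ξ, derM (-I) ξ (gr S π) x * gr S π x - gr S π x * derM (-I) ξ (gr S π) x =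
    derM (-I) ξ (gr S π) x

theorem LV.dlv {U : Set E} {Q : Matrix n n ℂ} {S : Finset ℤ} {π : ℤ → E → Matrix n n ℂ}
    (L : LV U Q S π) : DLV U Q S π :=
  ⟨L.op, fun _ hx => (L.sm_gr hx).df, L.prj, L.adj, L.pos, L.ax⟩

namespace DLV

variable {U : Set E} {Q : Matrix n n ℂ} {S : Finset ℤ} {π : ℤ → E → Matrix n n ℂ} {x : E}

theorem unit (L : DLV U Q S π) (hx : x ∈ U) : IsUnit Q.det := by
  have := (L.pos x hx).isUnit
  rw [Matrix.isUnit_iff_isUnit_det, Matrix.det_mul] at this
  exact isUnit_of_mul_isUnit_left this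

theorem adj_gr (L : DLV U Q S π) (hx : x ∈ U) : (gr S π x)ᴴ * Q = Q * gr S π x := by
  rw [gr, conjTranspose_sum, Finset.sum_mul, Finset.mul_sum]
  refine Finset.sum_congr rfl fun q _ => ?_
  rw [conjTranspose_smul, Matrix.smul_mul, L.adj x hx, Matrix.mul_smul]
  simp

theorem ax' (L : DLV U Q S π) (hx : x ∈ U) (ξ : E) :
    derM I ξ (gr S π) x * gr S π x - gr S π x * derM I ξ (gr S π) x =
      (-1 : ℂ) • derM I ξ (gr S π) x := by
  have e : derM I ξ (fun y => (gr S π y)ᴴ * Q) x = derM I ξ (fun y => Q * gr S π y) x :=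
    derM_congr_on L.op hx fun y hy => L.adj_gr hy
  rw [(L.df x hx).ct.derM_mul (dfM_const Q), (dfM_const Q).derM_mul (L.df x hx), derM_const,
    (L.df x hx).derM_ct, conj_I, Matrix.mul_zero, Matrix.zero_mul, add_zero, zero_add] at e
  have d := congrArg (fun A => Aᴴ * Q) (L.ax x hx ξ)
  simp only [conjTranspose_sub, conjTranspose_mul] at d
  have a := L.adj_gr hx
  have t := Matrix.nonsing_inv_mul _ (L.unit hx)
  rw [neg_one_smul]
  generalize derM I ξ (gr S π) x = D' at *
  generalize (derM (-I) ξ (gr S π) x)ᴴ = D at *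
  generalize (gr S π x)ᴴ = Z at *
  generalize gr S π x = Y at *
  have b : Q * (D' * Y - Y * D' + D') = 0 := by
    linear_combination (norm := noncomm_ring) -d - e * Y - D * a + a * D' + Z * e - e
  have : D' * Y - Y * D' + D' = 0 := by
    rw [← Matrix.one_mul (_ + _), ← t, Matrix.mul_assoc, b, Matrix.mul_zero]
  exact eq_neg_of_add_eq_zero_left this

theorem fil_holo (L : DLV U Q S π) (hx : x ∈ U) (p : ℤ) :
    DfM (fil S π p) x ∧ fil S π p x * fil S π p x = fil S π p x ∧
      (∀ ξ, (1 - fil S π p x) * derM I ξ (fil S π p) x = 0) ∧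
      ∀ ξ, fil S π p x * derM (-I) ξ (fil S π p) x = 0 := by
  obtain ⟨f, hf⟩ := exists_interp S fun q => if p ≤ q then (1 : ℂ) else 0
  have H := L.prj x hx
  have e : ∀ y ∈ U, fil S π p y = Polynomial.aeval (gr S π y) f := fun y hy => by
    rw [gr, (L.prj y hy).aeval_sum, fil]
    exact Finset.sum_congr rfl fun q hq => by rw [hf q hq]
  have ev : fil S π p =ᶠ[𝓝 x] fun y => Polynomial.aeval (gr S π y) f :=
    Filter.eventually_of_mem (L.op.mem_nhds hx) e
  have d : DfM (fil S π p) x := ((L.df x hx).aeval f).congr ev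
  have i := H.fil_idem p
  have di : ∀ c ξ, derM c ξ (fil S π p) x * fil S π p x + fil S π p x * derM c ξ (fil S π p) x =
      derM c ξ (fil S π p) x := fun c ξ => by
    rw [← d.derM_mul d]
    exact derM_congr_on L.op hx fun y hy => (L.prj y hy).fil_idem p
  refine ⟨d, i, fun ξ => ?_, fun ξ => ?_⟩
  · have g := (L.df x hx).aeval_deg (L.ax' hx ξ) f
    rw [← derM_congr ev] at g
    have s := fun r => H.shift H (d := -1) (by simpa [gr] using g) r
    have z : (1 - fil S π p x) * derM I ξ (fil S π p) x * fil S π p x = 0 := by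
      refine H.eq_zero fun r => ?_
      rw [Matrix.mul_assoc, H.fil_mul, Matrix.mul_smul, Matrix.mul_assoc, s, ← Matrix.mul_assoc,
        Matrix.sub_mul, H.fil_mul, Matrix.one_mul]
      by_cases h : p ≤ r
      · rw [if_pos (show p ≤ r - -1 by omega)]
        simp
      · rw [if_neg h, zero_smul]
    linear_combination (norm := noncomm_ring) z - (1 - fil S π p x) * di I ξ
      - i * derM I ξ (fil S π p) x
  · have g := (L.df x hx).aeval_deg (d := 1) (by rw [one_smul]; exact L.ax x hx ξ) f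
    rw [← derM_congr ev] at g
    have s := fun r => H.shift H (d := 1) (by simpa [gr] using g) r
    have z : fil S π p x * derM (-I) ξ (fil S π p) x * (1 - fil S π p x) = 0 := by
      refine H.eq_zero fun r => ?_
      rw [Matrix.mul_assoc, Matrix.sub_mul, H.fil_mul, Matrix.one_mul]
      by_cases h : p ≤ r
      · rw [if_pos h]
        simp
      · rw [if_neg h, zero_smul, sub_zero, Matrix.mul_assoc, s, ← Matrix.mul_assoc, H.fil_mul,
          if_neg (show ¬ p ≤ r - 1 by omega)]
        simp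
    linear_combination (norm := noncomm_ring) z + fil S π p x * di (-I) ξ
      - i * derM (-I) ξ (fil S π p) x

theorem sm_fil [FiniteDimensional ℂ E] (L : DLV U Q S π) (hx : x ∈ U) (p : ℤ) :
    SmM (fil S π p) x :=
  idem_smooth (Filter.eventually_of_mem (L.op.mem_nhds hx) fun _ hy => L.fil_holo hy p)

/-- UPGRADE: differentiability of the grading is enough -/
theorem lv [FiniteDimensional ℂ E] (L : DLV U Q S π) : LV U Q S π where
  op := L.op
  sm := fun p _ hx => ((L.sm_fil hx p).sub (L.sm_fil hx (p + 1))).congr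
    (Filter.eventually_of_mem (L.op.mem_nhds hx) fun y hy => (L.prj y hy).fil_sub p)
  prj := L.prj
  adj := L.adj
  pos := L.pos
  ax := L.ax

/-- a holomorphic frame of `F^p` near `x`, normalised by the projector at `x` -/
theorem hol_frame (L : DLV U Q S π) (hx : x ∈ U) (p : ℤ) :
    ∃ e : E → Matrix n n ℂ, e x = fil S π p x ∧ ∀ᶠ y in 𝓝 x,
      (∀ i j, DifferentiableAt ℂ (fun z => e z i j) y) ∧ fil S π p y * e y = e y ∧
      fil S π p x * e y = fil S π p x ∧ e y * fil S π p x = e y := by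
  obtain ⟨e, e0, he⟩ := idem_frame (c := I) (P := fil S π p) (x := x)
    (Filter.eventually_of_mem (L.op.mem_nhds hx) fun _ hy =>
      ⟨(L.fil_holo hy p).1, (L.fil_holo hy p).2.1, (L.fil_holo hy p).2.2.1⟩)
  exact ⟨e, e0, he.mono fun y hy => ⟨fun i j => holo_of_dbar (hy.1 i j)
    fun ξ => congrFun (congrFun (hy.2.2.2.2 ξ) i) j, hy.2.1, hy.2.2.1, hy.2.2.2.1⟩⟩

end DLV

/-- the real form of the axiom implies the complex form -/
theorem ax_of_real {Y : E → Matrix n n ℂ} {x : E} {D : E → Matrix n n ℂ}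
    (hD : ∀ v i j, fderiv ℝ (fun y => Y y i j) x v = D v i j)
    (h : ∀ v, Y x * D v - D v * Y x = I • D (I • v)) (ξ : E) :
    derM (-I) ξ Y x * Y x - Y x * derM (-I) ξ Y x = derM (-I) ξ Y x := by
  have e : derM (-I) ξ Y x = (2⁻¹ : ℂ) • (D ξ - I • D (I • ξ)) := by
    ext i j
    simp only [derM, der, hD, Matrix.of_apply, Matrix.smul_apply, Matrix.sub_apply, smul_eq_mul]
    ring
  have n1 : D (I • I • ξ) = -D ξ := by
    ext i j
    rw [smul_smul, I_mul_I, neg_one_smul, Matrix.neg_apply, ← hD, ← hD, map_neg]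
  have h1 := h ξ
  have h2 := congrArg (fun A => I • A) ((h (I • ξ)).trans (congrArg _ n1))
  simp only [smul_smul, I_mul_I, smul_sub, neg_smul, one_smul, neg_neg] at h2
  rw [e, Matrix.smul_mul, Matrix.mul_smul, ← smul_sub, Matrix.sub_mul, Matrix.mul_sub,
    Matrix.smul_mul, Matrix.mul_smul]
  congr 1
  linear_combination (norm := module) h2 - h1

end

end Pool.Agent.Lib.MP_5c318e_ag.V
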