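import Pool.Agent.Lib.MP_5c318e_ag.H.EllB
import Pool.Agent.Lib.MP_5c318e_ag.H.Reg

/-! Regularity of weakly harmonic forms with values in a variation, in a flat frame. -/

set_option autoImplicit false

namespace Pool.Agent.Lib.MP_5c318e_ag.Ell

open Complex Filter Topology MeasureTheory Set Metric V Matrix
open scoped ContDiff ComplexConjugate

noncomputable section

variable {n : Type*} [Fintype n] [DecidableEq n]

/-- `u` agrees near `x` almost everywhere with a smooth function -/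
def Reg (x : ℂ) (u : ℂ → ℂ) : Prop :=
  ∃ G : ℂ → ℂ, (∀ᶠ y in 𝓝 x, Sm G y) ∧ u =ᶠ[𝓝 x ⊓ ae volume] G

theorem neBot_ae (x : ℂ) : (𝓝 x ⊓ ae (volume : Measure ℂ)).NeBot :=
  Filter.inf_neBot_iff.2 fun _ hs _ ht =>
    Set.inter_comm _ _ ▸ (Measure.dense_of_ae ht).inter_nhds_nonempty hs

theorem eq_of_ae {F : Type*} [TopologicalSpace F] [T2Space F] {x : ℂ} {f g : ℂ → F}
    (hf : ContinuousAt f x) (hg : ContinuousAt g x) (h : f =ᶠ[𝓝 x ⊓ ae volume] g) : f x = g x :=
  haveI := neBot_ae x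
  tendsto_nhds_unique_of_eventuallyEq (hf.tendsto.mono_left inf_le_left)
    (hg.tendsto.mono_left inf_le_left) h

theorem ev_ae_of {x : ℂ} {N : Set ℂ} (hN : N ∈ 𝓝 x) {p : ℂ → Prop} (h : ∀ᵐ y, y ∈ N → p y) :
    ∀ᶠ y in 𝓝 x ⊓ ae volume, p y := by
  filter_upwards [mem_inf_of_left hN, mem_inf_of_right h] with y h1 h2
  exact h2 h1

theorem ev_ae_nhds {x : ℂ} {p : ℂ → Prop} (h : ∀ᶠ y in 𝓝 x ⊓ ae volume, p y) :
    ∀ᶠ y in 𝓝 x, ∀ᶠ z in 𝓝 y ⊓ ae volume, p z := by
  obtain ⟨s, hs, t, ht, e⟩ := mem_inf_iff.1 h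
  filter_upwards [eventually_mem_nhds_iff.2 hs] with y hy
  exact mem_inf_iff.2 ⟨s, hy, t, ht, e⟩

theorem ae_of_local {U : Set ℂ} {p : ℂ → Prop} (h : ∀ x ∈ U, ∀ᶠ y in 𝓝 x ⊓ ae volume, p y) :
    ∀ᵐ y, y ∈ U → p y := by
  refine measure_mono_null (t := {y | y ∈ U ∧ ¬ p y}) (fun y hy => by simpa using hy)
    (measure_null_of_locally_null _ fun x hx => ?_)
  obtain ⟨s, hs, t, ht, e⟩ := mem_inf_iff.1 (h x hx.1)
  refine ⟨s ∩ {y | y ∈ U ∧ ¬ p y}, inter_mem (mem_nhdsWithin_of_mem_nhds hs) self_mem_nhdsWithin,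
    measure_mono_null (t := tᶜ) (fun y hy hyt => hy.2.2 ?_) ht⟩
  have : y ∈ s ∩ t := ⟨hy.1, hyt⟩
  rwa [← e] at this

theorem Reg.congr {x : ℂ} {u v : ℂ → ℂ} (h : Reg x u) (e : v =ᶠ[𝓝 x] u) : Reg x v := by
  obtain ⟨G, h1, h2⟩ := h
  exact ⟨G, h1, (e.filter_mono inf_le_left).trans h2⟩

theorem Reg.sum {J : Type*} (s : Finset J) {x : ℂ} {u : J → ℂ → ℂ} (h : ∀ j, Reg x (u j)) :
    Reg x fun y => ∑ j ∈ s, u j y := by
  choose G h1 h2 using h
  refine ⟨fun y => ∑ j ∈ s, G j y, ?_, ?_⟩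
  · filter_upwards [(eventually_all_finset s).2 fun j _ => h1 j] with y hy
    exact ContDiffAt.sum hy
  · filter_upwards [(eventually_all_finset s).2 fun j _ => h2 j] with y hy
    exact Finset.sum_congr rfl hy

theorem Reg.const_mul {x : ℂ} {u : ℂ → ℂ} (h : Reg x u) (c : ℂ) : Reg x fun y => c * u y := by
  obtain ⟨G, h1, h2⟩ := h
  exact ⟨fun y => c * G y, h1.mono fun _ hy => contDiffAt_const.mul hy,
    h2.mono fun y hy => by simp only [hy]⟩

/-- locally integrable vector functions -/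
def LI (U : Set ℂ) (a : ℂ → n → ℂ) : Prop := ∀ i, LocallyIntegrableOn (fun x => a x i) U

/-- the weak equation `∂ b - ∂̄ a = f` -/
def WK (U : Set ℂ) (a b f : ℂ → n → ℂ) : Prop :=
  ∀ φ, Test U φ → ∀ i, ∫ x, (der I 1 φ x * a x i - der (-I) 1 φ x * b x i - φ x * f x i) = 0

section

variable {U : Set ℂ} {a b f a' b' f' : ℂ → n → ℂ} {M : ℂ → Matrix n n ℂ}

omit [DecidableEq n] in
theorem LI.mul (hU : IsOpen U) (ha : LI U a) (hM : ∀ x ∈ U, SmM M x) :
    LI U fun x => M x *ᵥ a x := fun i => by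
  have : ∀ s : Finset n, LocallyIntegrableOn (fun x => ∑ j ∈ s, M x i j * a x j) U := by
    classical
    intro s
    induction s using Finset.induction_on with
    | empty => simpa using (locallyIntegrable_zero (μ := volume)).locallyIntegrableOn U
    | insert j s hj ih =>
      simp only [Finset.sum_insert hj]
      exact ((ha j).continuousOn_mul (fun x hx => (hM x hx i j).continuousAt.continuousWithinAt)
        hU.isLocallyClosed).add ih
  exact this Finset.univ

omit [Fintype n] [DecidableEq n] in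
theorem LI.add (ha : LI U a) (hb : LI U b) : LI U (a + b) := fun i => (ha i).add (hb i)

omit [Fintype n] [DecidableEq n] in
theorem LI.sub (ha : LI U a) (hb : LI U b) : LI U (a - b) := fun i => (ha i).sub (hb i)

omit [Fintype n] [DecidableEq n] in
theorem LI.neg (ha : LI U a) : LI U (-a) := fun i => (ha i).neg

omit [Fintype n] [DecidableEq n] in
theorem li_of_sm (hU : IsOpen U) (h : ∀ x ∈ U, ∀ i, Sm (fun y => a y i) x) : LI U a :=
  fun i => locInt_of_sm hU fun x hx => h x hx i

omit [Fintype n] [DecidableEq n] in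
theorem wk_int (ha : LI U a) (hb : LI U b) (hf : LI U f) {φ : ℂ → ℂ} (hφ : Test U φ) (i : n) :
    Integrable fun x => der I 1 φ x * a x i - der (-I) 1 φ x * b x i - φ x * f x i :=
  (((hφ.der _ _).integrable (ha i)).sub ((hφ.der _ _).integrable (hb i))).sub
    (hφ.integrable (hf i))

omit [Fintype n] [DecidableEq n] in
theorem WK.congr (h : WK U a b f) (e : ∀ x ∈ U, a' x = a x ∧ b' x = b x ∧ f' x = f x) :
    WK U a' b' f' := fun φ hφ i => by
  rw [← h φ hφ i]
  refine integral_congr_ae (Eventually.of_forall fun x => ?_)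
  by_cases hx : x ∈ U
  · simp only [(e x hx).1, (e x hx).2.1, (e x hx).2.2]
  · simp only [hφ.zero hx, (hφ.der _ _).zero hx, zero_mul]

omit [Fintype n] [DecidableEq n] in
theorem WK.add (h : WK U a b f) (h' : WK U a' b' f') (ha : LI U a) (hb : LI U b) (hf : LI U f)
    (ha' : LI U a') (hb' : LI U b') (hf' : LI U f') : WK U (a + a') (b + b') (f + f') :=
  fun φ hφ i => by
  have := integral_add (wk_int ha hb hf hφ i) (wk_int ha' hb' hf' hφ i)
  rw [h φ hφ i, h' φ hφ i, add_zero] at this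
  rw [← this]
  refine integral_congr_ae (Eventually.of_forall fun x => ?_)
  simp only [Pi.add_apply]
  ring

omit [DecidableEq n] in
theorem WK.mul (h : WK U a b f) (ha : LI U a) (hb : LI U b) (hf : LI U f)
    (hM : ∀ x ∈ U, SmM M x) : WK U (fun x => M x *ᵥ a x) (fun x => M x *ᵥ b x)
      fun x => M x *ᵥ f x - derM I 1 M x *ᵥ a x + derM (-I) 1 M x *ᵥ b x := fun φ hφ i => by
  have t : ∀ j, Test U fun x => φ x * M x i j := fun j => hφ.mul fun x hx => hM x hx i j
  have := integral_finsetSum (μ := volume) Finset.univ fun j _ => wk_int ha hb hf (t j) j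
  simp only [fun j => h _ (t j) j, Finset.sum_const_zero] at this
  rw [← this]
  refine integral_congr_ae (Eventually.of_forall fun x => ?_)
  simp only [fun j => hφ.der_mul (f := fun x => M x i j) fun x hx => hM x hx i j, mulVec,
    dotProduct, Pi.add_apply, Pi.sub_apply, derM, Matrix.of_apply, Finset.mul_sum,
    ← Finset.sum_sub_distrib, ← Finset.sum_add_distrib]
  exact Finset.sum_congr rfl fun j _ => by ring

omit [Fintype n] [DecidableEq n] in
theorem WK.split (h : WK U a b f) (ha : LI U a) (hb : LI U b) (hf : LI U f) {φ : ℂ → ℂ}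
    (hφ : Test U φ) (i : n) :
    ∫ x, der I 1 φ x * a x i = (∫ x, der (-I) 1 φ x * b x i) + ∫ x, φ x * f x i := by
  have := h φ hφ i
  have i1 : Integrable fun x => der I 1 φ x * a x i - der (-I) 1 φ x * b x i :=
    ((hφ.der _ _).integrable (ha i)).sub ((hφ.der _ _).integrable (hb i))
  rw [integral_sub i1 (hφ.integrable (hf i)), integral_sub ((hφ.der _ _).integrable (ha i))
    ((hφ.der _ _).integrable (hb i))] at this
  linear_combination this

end

/-- a frame of the range of an idempotent killed by `der c` -/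
theorem frame {U : Set ℂ} (hU : IsOpen U) {x : ℂ} (hx : x ∈ U) {c : ℂ} {P : ℂ → Matrix n n ℂ}
    (sP : ∀ y ∈ U, SmM P y) (iP : ∀ y ∈ U, P y * P y = P y)
    (dP : ∀ y ∈ U, derM c 1 P y * P y = 0) :
    ∃ E : ℂ → Matrix n n ℂ, ∀ᶠ y in 𝓝 x, SmM E y ∧ derM c 1 E y = 0 ∧ P y * E y = E y ∧
      E y * P y = P y := by
  let M : ℂ → Matrix n n ℂ := fun y => P x * P y + (1 - P x) * (1 - P y)
  have sM : ∀ y ∈ U, SmM M y := fun y hy =>
    ((smM_const _).mul (sP y hy)).add ((smM_const _).mul ((smM_const _).sub (sP y hy)))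
  have M0 : M x = 1 := by
    simp only [M]
    linear_combination (norm := noncomm_ring) iP x hx + iP x hx
  have u : ∀ᶠ y in 𝓝 x, (M y).det ≠ 0 :=
    (sM x hx).det.continuousAt.eventually_ne (by simp [M0])
  refine ⟨fun y => (M y)⁻¹ * P x, ?_⟩
  filter_upwards [u.eventually_nhds, hU.mem_nhds hx] with y hy hyU
  have u0 := hy.self_of_nhds
  have l := Matrix.nonsing_inv_mul _ (Ne.isUnit u0)
  have r := Matrix.mul_nonsing_inv _ (Ne.isUnit u0)
  have sE : SmM (fun y => (M y)⁻¹ * P x) y := ((sM y hyU).inv u0).mul (smM_const _)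
  have a1 : M y * P y = P x * P y := by
    simp only [M]
    linear_combination (norm := noncomm_ring) P x * iP y hyU - (1 - P x) * iP y hyU
  have a2 : P x * M y = P x * P y := by
    simp only [M]
    linear_combination (norm := noncomm_ring) iP x hx * P y - iP x hx * (1 - P y)
  have b1 : P y * ((M y)⁻¹ * P x) = (M y)⁻¹ * P x := by
    linear_combination (norm := noncomm_ring) -(l * P y * (M y)⁻¹ * P x) +
      (M y)⁻¹ * a1 * (M y)⁻¹ * P x - (M y)⁻¹ * a2 * (M y)⁻¹ * P x + (M y)⁻¹ * P x * r * P x +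
      (M y)⁻¹ * iP x hx
  refine ⟨sE, ?_, b1, ?_⟩
  · have e1 : derM c 1 (fun y => M y * ((M y)⁻¹ * P x)) y = derM c 1 (fun _ => P x) y :=
      derM_congr (hy.mono fun z hz => by
        simp only [← Matrix.mul_assoc, Matrix.mul_nonsing_inv _ (Ne.isUnit hz), Matrix.one_mul])
    have e2 : derM c 1 M y = P x * derM c 1 P y - (1 - P x) * derM c 1 P y := by
      simp only [M]
      rw [derM_add ((smM_const _).mul (sP y hyU))
        ((smM_const _).mul ((smM_const _).sub (sP y hyU))), derM_const_mul _ (sP y hyU),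
        derM_const_mul _ ((smM_const _).sub (sP y hyU)), derM_sub (smM_const _) (sP y hyU),
        derM_const, zero_sub, Matrix.mul_neg, ← sub_eq_add_neg]
    rw [derM_mul (sM y hyU) sE, derM_const, e2] at e1
    have d := dP y hyU
    generalize derM c 1 (fun y => (M y)⁻¹ * P x) y = D at *
    generalize (M y)⁻¹ * P x = E at *
    linear_combination (norm := noncomm_ring) (M y)⁻¹ * e1 - l * D -
      (M y)⁻¹ * (P x - (1 - P x)) * d * E + (M y)⁻¹ * (P x - (1 - P x)) * derM c 1 P y * b1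
  · linear_combination (norm := noncomm_ring) l * P y - (M y)⁻¹ * a1

omit [DecidableEq n] in
/-- weak solution of `der c 1 u = b` in the range of an idempotent -/
theorem solve_in {c : ℂ} (hc : c = I ∨ c = -I) {x : ℂ} {r : ℝ} {P E : ℂ → Matrix n n ℂ}
    (hE : ∀ y ∈ ball x r, SmM E y ∧ derM c 1 E y = 0 ∧ P y * E y = E y ∧ E y * P y = P y)
    {b : ℂ → n → ℂ} (ib : ∀ i, IntegrableOn (fun y => b y i) (ball x r))
    (hb : ∀ y ∈ ball x r, P y *ᵥ b y = b y) :
    ∃ u : ℂ → n → ℂ, LI (ball x r) u ∧ (∀ y ∈ ball x r, P y *ᵥ u y = u y) ∧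
      ∀ i φ, Test (ball x r) φ → ∫ y, der c 1 φ y * u y i = -∫ y, φ y * b y i := by
  choose v iv _ hv using fun j => solve hc (ib j)
  have lv : LI (ball x r) fun y j => v j y := fun j =>
    (iv j).locallyIntegrable.locallyIntegrableOn _
  refine ⟨fun y => E y *ᵥ fun j => v j y, lv.mul isOpen_ball fun y hy => (hE y hy).1,
    fun y hy => by rw [mulVec_mulVec, (hE y hy).2.2.1], fun i φ hφ => ?_⟩
  have t : ∀ j, Test (ball x r) fun y => φ y * E y i j := fun j =>
    hφ.mul fun y hy => (hE y hy).1 i j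
  have s1 := integral_finsetSum (μ := volume) Finset.univ fun j _ =>
    ((t j).der c 1).integrable (lv j)
  have s2 := integral_finsetSum (μ := volume) Finset.univ fun j _ =>
    (t j).integrable (ib j).locallyIntegrableOn
  simp only [fun j => hv j _ (t j), Finset.sum_neg_distrib] at s1
  rw [← s2] at s1
  refine (integral_congr_ae (Eventually.of_forall fun y => ?_)).trans
    (s1.trans (congrArg Neg.neg (integral_congr_ae (Eventually.of_forall fun y => ?_))))
  · by_cases hy : y ∈ ball x r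
    · have z : ∀ j, der c 1 (fun y => E y i j) y = 0 := fun j =>
        congrFun (congrFun (hE y hy).2.1 i) j
      simp only [fun j => hφ.der_mul (f := fun y => E y i j) fun y hy => (hE y hy).1 i j, z,
        mul_zero, add_zero, mulVec, dotProduct, Finset.mul_sum, mul_assoc]
    · simp only [(hφ.der c 1).zero hy, fun j => ((t j).der c 1).zero hy, zero_mul,
        Finset.sum_const_zero]
  · by_cases hy : y ∈ ball x r
    · have : E y *ᵥ b y = b y := by
        conv_lhs => rw [← hb y hy, mulVec_mulVec, (hE y hy).2.2.2, hb y hy]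
      beta_reduce
      conv_rhs => rw [← this]
      simp only [mulVec, dotProduct, Finset.mul_sum, mul_assoc]
    · simp only [hφ.zero hy, zero_mul, Finset.sum_const_zero]

omit [DecidableEq n] in
theorem sm_mulVec {M : ℂ → Matrix n n ℂ} {G : n → ℂ → ℂ} {y : ℂ} (hM : SmM M y)
    (hG : ∀ j, Sm (G j) y) (i : n) : Sm (fun y => (M y *ᵥ fun j => G j y) i) y :=
  ContDiffAt.sum fun j _ => (hM i j).mul (hG j)

/-- regularity of a form of pure type -/
theorem pure {U : Set ℂ} (hU : IsOpen U) {x : ℂ} (hx : x ∈ U) {P : ℂ → Matrix n n ℂ}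
    (sP : ∀ y ∈ U, SmM P y) (iP : ∀ y ∈ U, P y * P y = P y)
    (d1 : ∀ y ∈ U, (1 - P y) * derM I 1 P y = 0) (d2 : ∀ y ∈ U, P y * derM (-I) 1 P y = 0)
    {a b f : ℂ → n → ℂ} (ia : LI U a) (ib : LI U b) (sf : ∀ y ∈ U, ∀ i, Sm (fun y => f y i) y)
    (ha : ∀ y ∈ U, P y *ᵥ a y = 0) (hb : ∀ y ∈ U, P y *ᵥ b y = b y) (hw : WK U a b f) (i : n) :
    Reg x (fun y => a y i) ∧ Reg x fun y => b y i := by
  have di : ∀ c, ∀ y ∈ U, derM c 1 P y * P y + P y * derM c 1 P y = derM c 1 P y := fun c y hy => by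
    rw [← derM_mul (sP y hy) (sP y hy)]
    exact derM_congr_on hU hy iP
  obtain ⟨E, hE⟩ := frame hU hx (c := I) sP iP fun y hy => by
    linear_combination (norm := noncomm_ring) di I y hy + d1 y hy
  obtain ⟨E', hE'⟩ := frame hU hx (c := -I) (P := fun y => 1 - P y)
    (fun y hy => (smM_const _).sub (sP y hy))
    (fun y hy => by linear_combination (norm := noncomm_ring) iP y hy) fun y hy => by
      rw [derM_sub (smM_const _) (sP y hy), derM_const]
      linear_combination (norm := noncomm_ring) di (-I) y hy - d2 y hy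
  obtain ⟨R, hR, hB⟩ := Metric.eventually_nhds_iff_ball.1
    (hE.and (hE'.and (show ∀ᶠ y in 𝓝 x, y ∈ U from hU.mem_nhds hx)))
  obtain ⟨r, hr, rfl⟩ : ∃ r, 0 < r ∧ R = 4 * r := ⟨R / 4, by linarith, by ring⟩
  have s3 : closedBall x (3 * r) ⊆ ball x (4 * r) := closedBall_subset_ball (by linarith)
  have s3' : ball x (3 * r) ⊆ ball x (4 * r) := ball_subset_ball (by linarith)
  have s2 : ball x (2 * r) ⊆ ball x (3 * r) := ball_subset_ball (by linarith)
  have s2' : closedBall x (2 * r) ⊆ ball x (3 * r) := closedBall_subset_ball (by linarith)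
  have s1 : ball x r ⊆ ball x (2 * r) := ball_subset_ball (by linarith)
  have sU : ball x (4 * r) ⊆ U := fun y hy => (hB y hy).2.2
  have sU3 := s3'.trans sU
  have io : ∀ {g : ℂ → n → ℂ}, LI U g → ∀ j, IntegrableOn (fun y => g y j) (ball x (3 * r)) :=
    fun h j => ((h j).integrableOn_compact_subset (s3.trans sU)
      (isCompact_closedBall _ _)).mono_set ball_subset_closedBall
  obtain ⟨u, lu, pu, hu⟩ := solve_in (Or.inl rfl) (fun y hy => (hB y (s3' hy)).1) (io ib)
    fun y hy => hb y (sU3 hy)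
  obtain ⟨v, lv, pv, hv⟩ := solve_in (Or.inr rfl) (fun y hy => (hB y (s3' hy)).2.1) (io ia)
    fun y hy => by rw [sub_mulVec, one_mulVec, ha y (sU3 hy), sub_zero]
  have key : ∀ j, ∃ G : ℂ → ℂ, ContDiff ℝ ∞ G ∧ ∀ᵐ y, y ∈ ball x r → u y j - v y j = G y := by
    intro j
    have i1 : IntegrableOn (fun y => u y j - v y j) (ball x (2 * r)) :=
      (((lu.sub lv) j).integrableOn_compact_subset s2' (isCompact_closedBall _ _)).mono_set
        ball_subset_closedBall
    obtain ⟨G, sG, hG⟩ := weyl_src (x₀ := x) (f := fun y => f y j) hr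
      ((integrable_indicator_iff measurableSet_ball).2 i1).locallyIntegrable
      (fun y hy => sf y (sU3 hy) j) fun φ hφ => by
        have t := (hφ.der (-I) 1).der I 1
        have e : ∀ y, der I 1 (der (-I) 1 φ) y *
            (ball x (2 * r)).indicator (fun y => u y j - v y j) y =
            der I 1 (der (-I) 1 φ) y * u y j - der (-I) 1 (der I 1 φ) y * v y j := fun y => by
          rw [der_comm (c := -I) hφ.sm.contDiffAt]
          by_cases hy : y ∈ ball x (2 * r)
          · rw [indicator_of_mem hy, mul_sub]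
          · simp only [t.zero hy, zero_mul, sub_zero]
        simp only [e]
        rw [integral_sub ((t.mono s2).integrable (lu j))
          ((((hφ.der I 1).der (-I) 1).mono s2).integrable (lv j)),
          hu j _ ((hφ.der _ _).mono s2), hv j _ ((hφ.der _ _).mono s2),
          hw.split ia ib (li_of_sm hU sf) (hφ.mono (s2.trans sU3)) j]
        ring
    exact ⟨G, sG, hG.mono fun y hy hyb => by rw [← hy hyb, indicator_of_mem (s1 hyb)]⟩
  choose G sG hG using key
  have s0 := (s1.trans s2).trans sU3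
  have eG : ∀ᵐ y, y ∈ ball x r → u y = P y *ᵥ (fun j => G j y) ∧
      v y = (P y - 1) *ᵥ fun j => G j y := by
    filter_upwards [ae_all_iff.2 hG] with y hy hyb
    have e : (fun j => G j y) = u y - v y := funext fun j => (hy j hyb).symm
    have p1 := pu y (s2 (s1 hyb))
    have p2 := pv y (s2 (s1 hyb))
    rw [sub_mulVec, one_mulVec, sub_eq_self] at p2
    rw [e, sub_mulVec, one_mulVec, mulVec_sub, p1, p2]
    simp
  have g1 : ∀ y ∈ ball x r, Sm (fun y => (P y *ᵥ fun j => G j y) i) y := fun y hy =>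
    sm_mulVec (sP y (s0 hy)) (fun j => (sG j).contDiffAt) i
  have g2 : ∀ y ∈ ball x r, Sm (fun y => ((P y - 1) *ᵥ fun j => G j y) i) y := fun y hy =>
    sm_mulVec ((sP y (s0 hy)).sub (smM_const _)) (fun j => (sG j).contDiffAt) i
  have nb := ball_mem_nhds x hr
  exact ⟨⟨_, Filter.mem_of_superset nb fun y hy => (g2 y hy).der (-I) 1, ev_ae_of nb
      (ae_eq_der isOpen_ball ((ia i).mono_set s0) g2 (eG.mono fun y hy hyb => by rw [(hy hyb).2])
        fun φ hφ => hv i φ (hφ.mono (s1.trans s2)))⟩,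
    ⟨_, Filter.mem_of_superset nb fun y hy => (g1 y hy).der I 1, ev_ae_of nb
      (ae_eq_der isOpen_ball ((ib i).mono_set s0) g1 (eG.mono fun y hy hyb => by rw [(hy hyb).1])
        fun φ hφ => hu i φ (hφ.mono (s1.trans s2)))⟩⟩

section lv

variable {U : Set ℂ} {Q : Matrix n n ℂ} {S : Finset ℤ} {π : ℤ → ℂ → Matrix n n ℂ} {x : ℂ}

theorem dbar_prj (L : LV U Q S π) (hx : x ∈ U) (ξ : ℂ) (p : ℤ) :
    derM I ξ (π p) x = ths (fun x => Q * wey S π x) ξ x * π p x -
      π p x * ths (fun x => Q * wey S π x) ξ x := by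
  have M := L.met
  have e : derM I ξ (fun y => (π p y)ᴴ * (Q * wey S π y)) x =
      derM I ξ (fun y => Q * wey S π y * π p y) x :=
    derM_congr_on L.op hx fun y hy => L.adj_prj hy p
  rw [derM_mul (L.sm p x hx).ct (M.sm x hx), derM_mul (M.sm x hx) (L.sm p x hx),
    dbar_ct (L.sm p x hx), L.d_prj hx, M.dbar_h hx, conjTranspose_sub, conjTranspose_mul,
    conjTranspose_mul] at e
  have a1 := M.adj_th (ξ := ξ) hx
  have a2 := L.adj_prj hx p
  have l := Matrix.nonsing_inv_mul _ (M.unit hx)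
  simp only [two_smul, neg_smul] at e
  generalize derM I ξ (π p) x = D at *
  generalize ths (fun x => Q * wey S π x) ξ x = T' at *
  generalize (th (fun x => Q * wey S π x) ξ x)ᴴ = T at *
  generalize (π p x)ᴴ = P' at *
  generalize Q * wey S π x = H at *
  linear_combination (norm := noncomm_ring) -(H⁻¹ * e) - l * D + H⁻¹ * P' * a1 - H⁻¹ * T * a2 -
    H⁻¹ * a1 * π p x - H⁻¹ * a2 * T' + l * T' * π p x - l * π p x * T'

theorem mul_wey (L : LV U Q S π) (hx : x ∈ U) (p : ℤ) :
    π p x * wey S π x = (-1 : ℂ) ^ p • π p x := (L.prj x hx).mul_sum _ p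

/-- weakly harmonic forms are smooth -/
theorem lv_reg (L : LV U Q S π) (hx : x ∈ U) {a b f : ℂ → n → ℂ} (ia : LI U a) (ib : LI U b)
    (sf : ∀ y ∈ U, ∀ i, Sm (fun y => f y i) y) (h1 : WK U a b 0)
    (h2 : WK U (fun y => (-wey S π y) *ᵥ a y) (fun y => wey S π y *ᵥ b y) f) (i : n) :
    Reg x (fun y => a y i) ∧ Reg x fun y => b y i := by
  have hU := L.op
  have i0 : LI U (0 : ℂ → n → ℂ) := fun _ =>
    (locallyIntegrable_zero (μ := volume)).locallyIntegrableOn U
  have key : ∀ q : ℤ, Reg x (fun y => (π (q - 1) y *ᵥ a y) i) ∧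
      Reg x fun y => (π q y *ᵥ b y) i := by
    intro q
    let M : ℂ → Matrix n n ℂ := fun y => (2⁻¹ : ℂ) • (π q y + π (q - 1) y)
    let N : ℂ → Matrix n n ℂ := fun y => (-1 : ℂ) ^ q • M y
    have sM : ∀ y ∈ U, SmM M y := fun y hy => ((L.sm _ y hy).add (L.sm _ y hy)).csmul _
    have sN : ∀ y ∈ U, SmM N y := fun y hy => (sM y hy).csmul _
    have ia' := ia.mul hU fun y hy => (L.sm_wey hy).neg
    have ib' := ib.mul hU fun y hy => L.sm_wey hy
    have if' := li_of_sm hU sf
    have dl : ∀ {M : ℂ → Matrix n n ℂ} {a b f : ℂ → n → ℂ}, (∀ y ∈ U, SmM M y) → LI U a →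
        LI U b → LI U f →
        LI U fun x => M x *ᵥ f x - derM I 1 M x *ᵥ a x + derM (-I) 1 M x *ᵥ b x :=
      fun hM ha hb hf => ((hf.mul hU hM).sub (ha.mul hU fun y hy => (hM y hy).der _ _)).add
        (hb.mul hU fun y hy => (hM y hy).der _ _)
    have w := (h1.mul ia ib i0 sM).add (h2.mul ia' ib' if' sN) (ia.mul hU sM) (ib.mul hU sM)
      (dl sM ia ib i0) (ia'.mul hU sN) (ib'.mul hU sN) (dl sN ia' ib' if')
    have z : ∀ k : ℤ, (-1 : ℂ) ^ q * (-1 : ℂ) ^ (q + 2 * k) = 1 := fun k => by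
      rw [← zpow_add₀ (by norm_num)]
      exact Even.neg_one_zpow ⟨q + k, by ring⟩
    have z' : ∀ k : ℤ, (-1 : ℂ) ^ q * (-1 : ℂ) ^ (q + 2 * k + 1) = -1 := fun k => by
      rw [zpow_add_one₀ (by norm_num), ← mul_assoc, z, one_mul]
    have ev : ∀ y ∈ U, ∀ k p : ℤ, p = q + 2 * k →
        (-1 : ℂ) ^ q • (π p y * wey S π y) = π p y := fun y hy k p hp => by
      rw [mul_wey L hy, smul_smul, hp, z, one_smul]
    have od : ∀ y ∈ U, ∀ k p : ℤ, p = q + 2 * k + 1 →
        (-1 : ℂ) ^ q • (π p y * wey S π y) = -π p y := fun y hy k p hp => by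
      rw [mul_wey L hy, smul_smul, hp, z', neg_one_smul]
    have w' : WK U (fun y => π (q - 1) y *ᵥ a y) (fun y => π q y *ᵥ b y)
        fun y => N y *ᵥ f y := w.congr fun y hy => by
      have e0 := ev y hy 0 q (by ring)
      have e2 := ev y hy (-1) (q - 1 - 1) (by ring)
      have o1 := od y hy (-1) (q - 1) (by ring)
      have o2 := od y hy 0 (q + 1) (by ring)
      have dM : ∀ c, derM c 1 M y = (2⁻¹ : ℂ) • (derM c 1 (π q) y + derM c 1 (π (q - 1)) y) :=
        fun c => by
          rw [derM_csmul _ ((L.sm _ y hy).add (L.sm _ y hy)), derM_add (L.sm _ y hy) (L.sm _ y hy)]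
      have dN : ∀ c, derM c 1 N y = (-1 : ℂ) ^ q • derM c 1 M y := fun c =>
        derM_csmul _ (sM y hy)
      have t1 := L.th_shift hy 1 q
      have t2 := L.th_shift hy 1 (q + 1)
      have t3 := L.ths_shift hy 1 (q - 1)
      have t4 := L.ths_shift hy 1 (q - 1 - 1)
      rw [add_sub_cancel_right] at t2
      rw [sub_add_cancel] at t3 t4
      have D1 : derM (-I) 1 M y = (2⁻¹ : ℂ) •
          (th (fun x => Q * wey S π x) 1 y * (π (q - 1) y - π (q + 1) y)) := by
        rw [dM, L.d_prj hy, L.d_prj hy, ← t1, ← t2, Matrix.mul_sub]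
        congr 1
        abel
      have D2 : derM I 1 M y = (2⁻¹ : ℂ) •
          (ths (fun x => Q * wey S π x) 1 y * (π q y - π (q - 1 - 1) y)) := by
        rw [dM, dbar_prj L hy, dbar_prj L hy, ← t3, ← t4, Matrix.mul_sub]
        congr 1
        abel
      have F1 : derM (-I) 1 N y * wey S π y = -derM (-I) 1 M y := by
        rw [dN, D1, Matrix.smul_mul, Matrix.smul_mul, Matrix.mul_assoc, smul_comm,
          ← Matrix.mul_smul, Matrix.sub_mul, smul_sub, o1, o2, ← smul_neg, ← Matrix.mul_neg]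
        congr 2
        abel
      have F2 : derM I 1 N y * wey S π y = derM I 1 M y := by
        rw [dN, D2, Matrix.smul_mul, Matrix.smul_mul, Matrix.mul_assoc, smul_comm,
          ← Matrix.mul_smul, Matrix.sub_mul, smul_sub, e0, e2]
      have F3 : N y * wey S π y = (2⁻¹ : ℂ) • (π q y - π (q - 1) y) := by
        simp only [N, M]
        rw [Matrix.smul_mul, Matrix.smul_mul, smul_comm, Matrix.add_mul, smul_add, e0, o1,
          ← sub_eq_add_neg]
      simp only [Pi.add_apply, mulVec_mulVec, Matrix.mul_neg, F1, F2, F3,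
        Pi.zero_apply, mulVec_zero]
      refine ⟨?_, ?_, ?_⟩
      · rw [← add_mulVec]
        congr 1
        simp only [M]
        module
      · rw [← add_mulVec]
        congr 1
        simp only [M]
        module
      · simp only [neg_mulVec]
        abel
    exact pure hU hx (P := fil S π q) (fun y hy => L.dlv.sm_fil hy q)
      (fun y hy => (L.prj y hy).fil_idem q) (fun y hy => (L.dlv.fil_holo hy q).2.2.1 1)
      (fun y hy => (L.dlv.fil_holo hy q).2.2.2 1) (ia.mul hU (L.sm _)) (ib.mul hU (L.sm _))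
      (fun y hy j => sm_mulVec (sN y hy) (sf y hy) j)
      (fun y hy => by
        rw [mulVec_mulVec, (L.prj y hy).fil_mul, if_neg (by omega), zero_smul, zero_mulVec])
      (fun y hy => by rw [mulVec_mulVec, (L.prj y hy).fil_mul, if_pos le_rfl, one_smul]) w' i
  have fin : ∀ g : ℂ → n → ℂ, (∀ q, Reg x fun y => (π q y *ᵥ g y) i) → Reg x fun y => g y i :=
    fun g hg => (Reg.sum S hg).congr (Filter.mem_of_superset (hU.mem_nhds hx) fun y hy => by
      have := (L.prj y hy).sum
      simp only [Set.mem_ofPred] at this ⊢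
      rw [← Finset.sum_apply, ← sum_mulVec, this, one_mulVec])
  exact ⟨fin a fun q => by simpa using (key (q + 1)).1, fin b fun q => (key q).2⟩

end lv

end

end Pool.Agent.Lib.MP_5c318e_ag.Ell
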